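import Pool.Agent.Run7.h439.DC.Inv3
import Pool.Agent.Results.MP_fd8838_nt.LawOfMinima

set_option autoImplicit false

/-!
# The minima of the orbits of the maps of Möller in the classes defined by digits

We consider the positive integers in a class given by the residues of strongly additive digit functions
(for example sums of digits) in pairwise coprime bases prime to `d`. The minima of the `T`-orbits are
distributed in every such class as among all positive integers, with a power saving, and the finiteness of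
the exceptional set is decided by almost all members of one class.
-/

namespace Pool.Agent.Results.MP_fd8838_nt.DigitClassesMinima

open Filter Topology

/-- the map `T(n) = n / d` if `d ∣ n` and `(m n - r_j) / d` if `n ≡ j mod d`, `1 ≤ j < d`; the points of a
`T`-orbit that are not divisible by `d` form the `H`-orbit -/
def T (d m : ℕ) (r : ℕ → ℤ) (n : ℤ) : ℤ :=
  if (d : ℤ) ∣ n then n / d else (m * n - r (n % d).toNat) / d

/-- the exceptional set `E(d, m, R)`, in terms of `T`: the integers `e > 0` not divisible by `d` such that,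
as long as the orbit of `e` stays positive, its terms not divisible by `d` (the terms of the `H`-orbit)
are `≥ e` -/
def E (d m : ℕ) (r : ℕ → ℤ) : Set ℤ :=
  {e : ℤ | 0 < e ∧ ¬ (d : ℤ) ∣ e ∧ ∀ k : ℕ, (∀ j ≤ k, 0 < (T d m r)^[j] e) →
    ¬ (d : ℤ) ∣ (T d m r)^[k] e → e ≤ (T d m r)^[k] e}

/-- the integers whose `T`-orbit has minimum `e` -/
def WithMin (d m : ℕ) (r : ℕ → ℤ) (e : ℤ) : Set ℤ :=
  {n : ℤ | (∀ k : ℕ, e ≤ (T d m r)^[k] n) ∧ ∃ k : ℕ, (T d m r)^[k] n = e}

/-- the integers whose `T`-orbit leaves the positive integers -/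
def Leaving (d m : ℕ) (r : ℕ → ℤ) : Set ℤ := {n : ℤ | ∃ k : ℕ, (T d m r)^[k] n ≤ 0}

/-- `W` is strongly `q`-additive: `W(n)` is the sum of the values of `W` at the digits of `n` in base `q`. -/
def StronglyAdditive (q : ℕ) (W : ℕ → ℤ) : Prop := ∀ n u : ℕ, u < q → W (q * n + u) = W n + W u

/-- There is no prime `p ∣ μ` such that `W(u) ≡ u W(1)` modulo `p` for all `u ≤ q`. For the sum of the
digits in base `q` this says that `μ` is coprime to `q - 1`. -/
def Unobstructed (q : ℕ) (W : ℕ → ℤ) (μ : ℕ) : Prop :=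
  ∀ p : ℕ, p.Prime → p ∣ μ → ∃ u : ℕ, u ≤ q ∧ ¬ W u ≡ u * W 1 [ZMOD p]

/-- The data: pairwise coprime bases `q i ≥ 3` prime to `d`, strongly `q i`-additive functions `W i` with
integer values, and moduli `μ i ≥ 1` without obstruction. -/
structure Data (d : ℕ) {l : ℕ} (q μ : Fin l → ℕ) (W : Fin l → ℕ → ℤ) : Prop where
  three : ∀ i, 3 ≤ q i
  prime_to : ∀ i, Nat.Coprime d (q i)
  coprime : ∀ i j, i ≠ j → Nat.Coprime (q i) (q j)
  additive : ∀ i, StronglyAdditive (q i) (W i)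
  pos : ∀ i, 1 ≤ μ i
  free : ∀ i, Unobstructed (q i) (W i) (μ i)

/-- the class: `W i (n) ≡ a i` modulo `μ i` for all `i` -/
def InClass {l : ℕ} (μ : Fin l → ℕ) (W : Fin l → ℕ → ℤ) (a : Fin l → ℤ) (n : ℕ) : Prop :=
  ∀ i, W i n ≡ a i [ZMOD μ i]

/-- the number of the `1 ≤ n ≤ X` with the property `P` -/
noncomputable def count (P : ℕ → Prop) (X : ℕ) : ℝ := ({n : ℕ | 1 ≤ n ∧ n ≤ X ∧ P n}.ncard : ℝ)

/-- The set of the positive integers with the property `P` has natural density `δ`. -/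
def HasDensity (P : ℕ → Prop) (δ : ℝ) : Prop := Tendsto (fun X : ℕ => count P X / X) atTop (𝓝 δ)

open Pool.Agent.Run7.h439.DC
open Pool.Agent.H319R3.GC (Tm Adm Mw wd Mw_cons)
open Pool.Agent.Y965.PL (Mn MnS ind ind_pos ind_neg ind_congr ind_nonneg)
open Pool.Agent.Results.MP_fd8838_nt.LawOfMinima (r0)
open Pool.Agent.TH930.GH (mq)

theorem T_eq (d m : ℕ) (hd : 2 ≤ d) (r : ℕ → ℤ) : Tm d (mq m) (r0 r) = T d m r :=
  (Pool.Agent.Results.MP_fd8838_nt.LawOfMinima.T_eq d m hd r).symm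

theorem count_ind (P : ℕ → Prop) (X : ℕ) : count P X = ∑ n ∈ Finset.Icc 1 X, ind P n := by
  classical
  unfold count ind
  rw [Finset.sum_boole]
  have e : {n : ℕ | 1 ≤ n ∧ n ≤ X ∧ P n} = ((Finset.Icc 1 X).filter fun n => P n : Finset ℕ) := by
    ext n
    simp only [Set.mem_ofPred_eq, Finset.coe_filter, Finset.mem_Icc, and_assoc]
  rw [e, Set.ncard_coe_finset]

theorem along_of {P Q : ℕ → Prop} {d : ℝ} (h : Mn (ind Q) d) (hPQ : ∀ n, 1 ≤ n → (P n ↔ Q n)) : HasDensity P d := by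
  unfold HasDensity
  unfold Mn at h
  refine h.congr fun X => ?_
  rw [count_ind P X]
  congr 1
  apply Finset.sum_congr rfl
  intro n hn
  exact ind_congr (hPQ _ (Finset.mem_Icc.1 hn).1).symm

theorem dens_unique {P : ℕ → Prop} {a b : ℝ} (h : HasDensity P a) (h' : HasDensity P b) : a = b := tendsto_nhds_unique h h'

theorem dens_iff {P Q : ℕ → Prop} {δ : ℝ} (h : HasDensity P δ) (hPQ : ∀ n, 1 ≤ n → (P n ↔ Q n)) : HasDensity Q δ := by
  unfold HasDensity at h ⊢
  refine h.congr fun X => ?_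
  have e : {n : ℕ | 1 ≤ n ∧ n ≤ X ∧ P n} = {n : ℕ | 1 ≤ n ∧ n ≤ X ∧ Q n} := by
    ext n
    simp only [Set.mem_ofPred_eq]
    constructor
    · rintro ⟨h1, h2, h3⟩; exact ⟨h1, h2, (hPQ n h1).1 h3⟩
    · rintro ⟨h1, h2, h3⟩; exact ⟨h1, h2, (hPQ n h1).2 h3⟩
  unfold count
  rw [e]

theorem dens_add {P Q : ℕ → Prop} {a b : ℝ} (h : HasDensity P a) (h' : HasDensity Q b) (hd : ∀ n, P n → ¬ Q n) :
    HasDensity (fun n => P n ∨ Q n) (a + b) := by
  unfold HasDensity at h h' ⊢
  refine (h.add h').congr fun X => ?_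
  have e : {n : ℕ | 1 ≤ n ∧ n ≤ X ∧ (P n ∨ Q n)} = {n : ℕ | 1 ≤ n ∧ n ≤ X ∧ P n} ∪ {n : ℕ | 1 ≤ n ∧ n ≤ X ∧ Q n} := by
    ext n
    simp only [Set.mem_ofPred_eq, Set.mem_union]
    tauto
  unfold count
  rw [e, Set.ncard_union_eq _ ((Set.finite_Iic X).subset fun n hn => hn.2.1) ((Set.finite_Iic X).subset fun n hn => hn.2.1)]
  · push_cast; ring
  · rw [Set.disjoint_left]
    rintro n ⟨_, _, h1⟩ ⟨_, _, h2⟩
    exact hd n h1 h2

theorem dens_none {P : ℕ → Prop} (h : ∀ n, 1 ≤ n → ¬ P n) : HasDensity P 0 := by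
  unfold HasDensity
  refine tendsto_const_nhds.congr fun N => ?_
  have e : {n : ℕ | 1 ≤ n ∧ n ≤ N ∧ P n} = ∅ := by
    rw [Set.eq_empty_iff_forall_notMem]
    rintro n ⟨h1, _, hn⟩
    exact h n h1 hn
  unfold count
  rw [e]
  simp

theorem dens_sum {ι : Type*} (A : Finset ι) (P : ι → ℕ → Prop) (a : ι → ℝ) (h : ∀ i ∈ A, HasDensity (P i) (a i))
    (hd : ∀ n, ∀ i ∈ A, ∀ j ∈ A, P i n → P j n → i = j) : HasDensity (fun n => ∃ i ∈ A, P i n) (∑ i ∈ A, a i) := by
  classical
  induction A using Finset.induction_on with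
  | empty =>
    rw [Finset.sum_empty]
    exact dens_none fun n _ => by rintro ⟨i, hi, _⟩; simp at hi
  | insert i A hi ih =>
    rw [Finset.sum_insert hi]
    have h1 := dens_add (h i (Finset.mem_insert_self i A)) (ih (fun j hj => h j (Finset.mem_insert_of_mem hj))
      (fun n j hj k hk => hd n j (Finset.mem_insert_of_mem hj) k (Finset.mem_insert_of_mem hk))) (by
      rintro n hn ⟨j, hj, hjn⟩
      have := hd n i (Finset.mem_insert_self i A) j (Finset.mem_insert_of_mem hj) hn hjn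
      subst this
      exact hi hj)
    refine dens_iff h1 fun n _ => ?_
    constructor
    · rintro (h2 | ⟨j, hj, h2⟩)
      · exact ⟨i, Finset.mem_insert_self i A, h2⟩
      · exact ⟨j, Finset.mem_insert_of_mem hj, h2⟩
    · rintro ⟨j, hj, h2⟩
      rcases Finset.mem_insert.1 hj with rfl | hj
      · exact Or.inl h2
      · exact Or.inr ⟨j, hj, h2⟩

theorem mn_of {S : Set ℤ} {δ : ℝ} (h : Pool.Agent.Results.MP_fd8838_nt.LawOfMinima.HasDensity S δ) :
    Mn (ind (fun n : ℕ => (n : ℤ) ∈ S)) δ := by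
  unfold Pool.Agent.Y965.PL.Mn
  refine Filter.Tendsto.congr (fun N => ?_) h
  have h1 := side_count (s := 1) (Or.inl rfl) S N
  simp only [one_mul] at h1
  rw [← h1]
  congr 3
  ext x
  simp only [Set.mem_ofPred_eq]
  constructor
  · rintro ⟨h1, h2, h3⟩; exact ⟨by omega, h3, h1⟩
  · rintro ⟨h1, h2, h3⟩; exact ⟨h3, by omega, h2⟩

/-- the properties of the first term in `[-R, R]` -/
def Via (d m : ℕ) (r : ℕ → ℤ) (R : ℕ) (Q : ℤ → Prop) (x : ℤ) : Prop :=
  ∃ k, FE (T d m r) (fun y => |y| ≤ (R : ℤ)) k x ∧ Q ((T d m r)^[k] x)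

theorem via_ef {d m : ℕ} (hd : 2 ≤ d) (r : ℕ → ℤ) (R : ℕ) (Q : ℤ → Prop) :
    EF d (mq m) (r0 r) 1 (fun y => |y| ≤ (R : ℤ)) (ind (fun n : ℕ => Via d m r R Q (n : ℤ))) := by
  classical
  refine ⟨fun n => by unfold ind; split_ifs <;> simp, fun k n n' h1 h2 _ h4 => ?_, fun n n' h1 h2 => ?_⟩
  · rw [T_eq d m hd, one_mul] at h1 h2
    rw [T_eq d m hd, one_mul, one_mul] at h4
    apply ind_congr
    unfold Via
    constructor
    · rintro ⟨j, hj, hQ⟩
      have := FE_unique hj h1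
      subst this
      exact ⟨j, h2, by rw [← h4]; exact hQ⟩
    · rintro ⟨j, hj, hQ⟩
      have := FE_unique hj h2
      subst this
      exact ⟨j, h1, by rw [h4]; exact hQ⟩
  · rw [T_eq d m hd, one_mul] at h1 h2
    rw [ind_neg, ind_neg]
    · rintro ⟨j, hj, _⟩; exact h2 j hj
    · rintro ⟨j, hj, _⟩; exact h1 j hj

/-- large terms are followed by positive terms -/
theorem step_pos {d m : ℕ} {r : ℕ → ℤ} (hA : Adm d (mq m) (r0 r)) {R : ℕ} (hR : ∀ j < d, |r j| ≤ (R : ℤ)) {x : ℤ}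
    (hx : (R : ℤ) < x) : 0 < T d m r x := by
  have hd := hA.two_le
  have h1 := Pool.Agent.H319R3.GC.iter_eq hA 1 x
  obtain ⟨_, h3⟩ := Pool.Agent.Y965.GP.mod_toNat hA.two_le x
  set i := (x % (d : ℤ)).toNat with hi
  have e1 : Mw (mq m) (wd d (mq m) (r0 r) 1 x) = mq m i := by simp [wd, Mw, hi]
  have e2 : Pool.Agent.H319R3.GC.Ww d (mq m) (r0 r) (wd d (mq m) (r0 r) 1 x) = r0 r i := by
    simp [wd, Pool.Agent.H319R3.GC.Ww, Mw, hi]
  rw [e1, e2, pow_one, Function.iterate_one, T_eq d m hd] at h1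
  have h0 : 0 ≤ (R : ℤ) := Nat.cast_nonneg R
  have hm1 : 1 ≤ mq m i := by
    unfold Pool.Agent.TH930.GH.mq
    split_ifs with h
    · exact le_rfl
    · have h5 := hA.cop i h3
      unfold Pool.Agent.TH930.GH.mq at h5
      rw [if_neg h] at h5
      by_contra hcon
      have h6 : m = 0 := by omega
      rw [h6] at h5
      have h7 : IsUnit (d : ℤ) := by
        have h8 : IsCoprime (0 : ℤ) (d : ℤ) := by simpa using h5
        exact isCoprime_zero_left.1 h8
      rw [Int.isUnit_iff] at h7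
      omega
  have hr0 : r0 r i ≤ (R : ℤ) := by
    unfold Pool.Agent.Results.MP_fd8838_nt.LawOfMinima.r0
    split_ifs
    · exact h0
    · exact (le_abs_self _).trans (hR i h3)
  have h5 : 0 < (d : ℤ) * T d m r x := by
    rw [h1]
    have : x ≤ mq m i * x := le_mul_of_one_le_left (by omega) hm1
    omega
  have hd0 : (0 : ℤ) < d := by omega
  exact (mul_pos_iff_of_pos_left hd0).1 h5

/-- the terms before the first term in `[-R, R]` are larger than `R` -/
theorem before {d m : ℕ} {r : ℕ → ℤ} (hA : Adm d (mq m) (r0 r)) {R : ℕ} (hR : ∀ j < d, |r j| ≤ (R : ℤ)) {x : ℤ} (hx : 0 < x)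
    {k : ℕ} (hk : ∀ i < k, ¬ |(T d m r)^[i] x| ≤ (R : ℤ)) : ∀ i < k, (R : ℤ) < (T d m r)^[i] x := by
  intro i
  induction i with
  | zero =>
    intro h
    have h1 := hk 0 h
    rw [Function.iterate_zero, id_eq, abs_of_pos hx] at h1
    rw [Function.iterate_zero, id_eq]
    omega
  | succ i ih =>
    intro h
    have h1 := ih (by omega)
    have h2 : 0 < (T d m r)^[i + 1] x := by
      rw [Function.iterate_succ_apply']
      exact step_pos hA hR h1
    have h3 := hk _ h
    rw [abs_of_pos h2] at h3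
    exact not_le.1 h3

theorem via_min {d m : ℕ} {r : ℕ → ℤ} (hA : Adm d (mq m) (r0 r)) {R : ℕ} (hR : ∀ j < d, |r j| ≤ (R : ℤ)) {x : ℤ} (hx : 0 < x)
    {e : ℤ} (he0 : 0 < e) (he : e ≤ R) : x ∈ WithMin d m r e ↔ Via d m r R (fun y => y ∈ WithMin d m r e) x := by
  constructor
  · rintro ⟨h1, j, hj⟩
    obtain ⟨k, hk⟩ := (FE_iff (T := T d m r) (A := fun y => |y| ≤ (R : ℤ)) (x := x)).1
      ⟨j, by show |(T d m r)^[j] x| ≤ (R : ℤ); rw [hj, abs_of_pos he0]; exact he⟩
    have hkj : k ≤ j := by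
      by_contra hcon
      have := hk.2 j (not_le.1 hcon)
      apply this
      show |(T d m r)^[j] x| ≤ (R : ℤ)
      rw [hj, abs_of_pos he0]; exact he
    refine ⟨k, hk, fun i => ?_, j - k, ?_⟩
    · rw [← Function.iterate_add_apply]; exact h1 _
    · rw [← Function.iterate_add_apply, Nat.sub_add_cancel hkj]; exact hj
  · rintro ⟨k, hk, h1, j, hj⟩
    have hb := before hA hR hx hk.2
    refine ⟨fun i => ?_, j + k, by rw [Function.iterate_add_apply]; exact hj⟩
    rcases lt_or_ge i k with h | h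
    · have := hb i h
      omega
    · have := h1 (i - k)
      rw [← Function.iterate_add_apply, Nat.sub_add_cancel h] at this
      exact this

theorem via_leave {d m : ℕ} {r : ℕ → ℤ} (hA : Adm d (mq m) (r0 r)) {R : ℕ} (hR : ∀ j < d, |r j| ≤ (R : ℤ)) {x : ℤ} (hx : 0 < x) :
    x ∈ Leaving d m r ↔ Via d m r R (fun y => y ∈ Leaving d m r) x := by
  constructor
  · rintro ⟨j, hj⟩
    have hex : ∃ k, (fun y => |y| ≤ (R : ℤ)) ((T d m r)^[k] x) := by
      by_contra hcon
      push Not at hcon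
      have := before hA hR hx (k := j + 1) (fun i _ => not_le.2 (hcon i)) j (by omega)
      omega
    obtain ⟨k, hk⟩ := (FE_iff (T := T d m r) (A := fun y => |y| ≤ (R : ℤ)) (x := x)).1 hex
    have hkj : k ≤ j := by
      by_contra hcon
      have := before hA hR hx hk.2 j (not_le.1 hcon)
      omega
    exact ⟨k, hk, j - k, by rw [← Function.iterate_add_apply, Nat.sub_add_cancel hkj]; exact hj⟩
  · rintro ⟨k, hk, j, hj⟩
    exact ⟨j + k, by rw [Function.iterate_add_apply]; exact hj⟩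

theorem min_unique {d m : ℕ} {r : ℕ → ℤ} {e e' x : ℤ} (h : x ∈ WithMin d m r e) (h' : x ∈ WithMin d m r e') : e = e' := by
  obtain ⟨h1, j, hj⟩ := h
  obtain ⟨h1', j', hj'⟩ := h'
  have a1 := h1 j'
  have a2 := h1' j
  rw [hj'] at a1
  rw [hj] at a2
  omega

/-- MINIMA OF THE ORBITS IN DIGIT CLASSES. Let `d, m ≥ 2` be coprime with `m ≤ d ^ (d / (d - 1))`, and let `R`
be admissible.

(1) For all data `q, μ, W` and all `Y` there are `K` and `c > 0` such that for all sets `B` of integers in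
`[1, Y]`, all classes `a` and all `X ≥ 1` the number of the `n ≤ X` in the class whose `T`-orbit has its minimum
in `B` is `∏ 1 / μ i` times the number of all such `n ≤ X`, up to `K X ^ (1 - c)`; and the same for the `n` whose
`T`-orbit leaves the positive integers.

(2) The densities `D e` of the sets of the positive integers whose `T`-orbit has minimum `e`, and the density
`η` of those whose orbit leaves the positive integers, exist, the sum of the `D e` over the exceptional set is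
`1 - η`, and in every class these sets have the densities `(∏ 1 / μ i) * D e` and `(∏ 1 / μ i) * η`.

(3) The exceptional set is finite if and only if there are data, a class and a bound `y` such that the `n` in
the class whose `T`-orbit stays in the integers larger than `y` have natural density `0`. -/
theorem result (d m : ℕ) (hd : 2 ≤ d) (hm : 2 ≤ m) (hc : Nat.Coprime m d)
    (hle : (m : ℝ) ≤ (d : ℝ) ^ ((d : ℝ) / ((d : ℝ) - 1))) (r : ℕ → ℤ)
    (hr : ∀ j : ℕ, 1 ≤ j → j < d → r j ≡ m * j [ZMOD d]) :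
    (∀ (l : ℕ) (q μ : Fin l → ℕ) (W : Fin l → ℕ → ℤ), Data d q μ W → ∀ Y : ℕ, ∃ K c : ℝ, 0 < c ∧
      ∀ B : Set ℤ, (∀ e ∈ B, 1 ≤ e ∧ e ≤ Y) → ∀ (a : Fin l → ℤ) (X : ℕ), 1 ≤ X →
        |count (fun n => InClass μ W a n ∧ ∃ e ∈ B, (n : ℤ) ∈ WithMin d m r e) X -
          (∏ i, 1 / (μ i : ℝ)) * count (fun n => ∃ e ∈ B, (n : ℤ) ∈ WithMin d m r e) X| ≤ K * (X : ℝ) ^ (1 - c) ∧
        |count (fun n => InClass μ W a n ∧ (n : ℤ) ∈ Leaving d m r) X -
          (∏ i, 1 / (μ i : ℝ)) * count (fun n => (n : ℤ) ∈ Leaving d m r) X| ≤ K * (X : ℝ) ^ (1 - c)) ∧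
    (∃ (D : ℤ → ℝ) (η : ℝ), HasSum (fun e : E d m r => D e) (1 - η) ∧
      ∀ (l : ℕ) (q μ : Fin l → ℕ) (W : Fin l → ℕ → ℤ), Data d q μ W → ∀ a : Fin l → ℤ,
        (∀ e : ℤ, 0 < e →
          HasDensity (fun n => InClass μ W a n ∧ (n : ℤ) ∈ WithMin d m r e) ((∏ i, 1 / (μ i : ℝ)) * D e)) ∧
        HasDensity (fun n => InClass μ W a n ∧ (n : ℤ) ∈ Leaving d m r) ((∏ i, 1 / (μ i : ℝ)) * η)) ∧
    ((E d m r).Finite ↔ ∃ (l : ℕ) (q μ : Fin l → ℕ) (W : Fin l → ℕ → ℤ) (a : Fin l → ℤ) (y : ℕ), Data d q μ W ∧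
      HasDensity (fun n => InClass μ W a n ∧ ∀ k : ℕ, (y : ℤ) < (T d m r)^[k] n) 0) := by
  classical
  have hA : Adm d (mq m) (r0 r) := Pool.Agent.Results.MP_fd8838_nt.LawOfMinima.adm hd hm hc hle hr
  obtain ⟨R0, hR0⟩ : ∃ R0 : ℕ, ∀ j < d, |r j| ≤ (R0 : ℤ) := by
    refine ⟨(Finset.range d).sup fun j => (r j).natAbs, fun j hj => ?_⟩
    have h1 : (r j).natAbs ≤ (Finset.range d).sup fun j => (r j).natAbs :=
      Finset.le_sup (f := fun j => (r j).natAbs) (Finset.mem_range.2 hj)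
    rw [Int.abs_eq_natAbs]
    exact_mod_cast h1
  have hDD : ∀ {l : ℕ} {q μ : Fin l → ℕ} {W : Fin l → ℕ → ℤ}, Data d q μ W → DD d q μ W :=
    fun hD => ⟨hD.three, hD.prime_to, hD.coprime, hD.additive, hD.pos, hD.free⟩
  have hcl : ∀ {l : ℕ} {μ : Fin l → ℕ} {W : Fin l → ℕ → ℤ} {a : Fin l → ℤ} (n : ℕ), InClass μ W a n ↔ Ed μ W a n :=
    fun n => Ed_iff
  have hcnt : ∀ {l : ℕ} {μ : Fin l → ℕ} {W : Fin l → ℕ → ℤ} {a : Fin l → ℤ} (P : ℕ → Prop) (X : ℕ),
      count (fun n => InClass μ W a n ∧ P n) X = ∑ n ∈ Finset.Icc 1 X, ind (Ed μ W a) n * ind P n := by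
    intro l μ W a P X
    rw [count_ind]
    apply Finset.sum_congr rfl
    intro n _
    rw [← ind_and]
    exact ind_congr (and_congr (hcl n) Iff.rfl)
  have hvia : ∀ {l : ℕ} {q μ : Fin l → ℕ} {W : Fin l → ℕ → ℤ}, Data d q μ W → ∀ Y : ℕ, ∃ C c : ℝ, 0 ≤ C ∧ 0 < c ∧
      ∀ (Q : ℤ → Prop) (a : Fin l → ℤ), CT (Ed μ W a) (∏ i, (1 / (μ i : ℝ))) C c
        (ind (fun n : ℕ => Via d m r (max R0 Y) Q (n : ℤ))) := by
    intro l q μ W hD Y
    obtain ⟨k0, hk0⟩ := ksync_fe hA (max R0 Y)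
    obtain ⟨C, c, hC, hc0, H⟩ := ct_digits hA 2 k0 q (hDD hD).three (hDD hD).copd (hDD hD).cop W
      (hDD hD).add μ (hDD hD).pos (fun i => obs_one ((hDD hD).free i))
    refine ⟨C, c, hC, hc0, fun Q a => ?_⟩
    exact H 1 (Or.inl rfl) _ (hk0 1 (Or.inl rfl) _ (fun x hx => hx) _ (via_ef hd r _ Q)) a
  have hRm : ∀ Y : ℕ, ∀ j < d, |r j| ≤ ((max R0 Y : ℕ) : ℤ) := by
    intro Y j hj
    have h1 := hR0 j hj
    have h2 : (R0 : ℤ) ≤ ((max R0 Y : ℕ) : ℤ) := by exact_mod_cast le_max_left R0 Y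
    omega
  obtain ⟨_, _, _, hlaw⟩ := Pool.Agent.Results.MP_fd8838_nt.LawOfMinima.result d m hd hm hc hle
  obtain ⟨D, η, _, _, ⟨hη, _⟩, hDd, hDpos, hsum0, _, _, hfin⟩ := hlaw r hr
  have hsum : HasSum (fun e : E d m r => D e) (1 - η) := hsum0
  have hclass : ∀ (l : ℕ) (q μ : Fin l → ℕ) (W : Fin l → ℕ → ℤ), Data d q μ W → ∀ a : Fin l → ℤ,
        (∀ e : ℤ, 0 < e →
          HasDensity (fun n => InClass μ W a n ∧ (n : ℤ) ∈ WithMin d m r e) ((∏ i, 1 / (μ i : ℝ)) * D e)) ∧
        HasDensity (fun n => InClass μ W a n ∧ (n : ℤ) ∈ Leaving d m r) ((∏ i, 1 / (μ i : ℝ)) * η) ∧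
        HasDensity (InClass μ W a) (∏ i, 1 / (μ i : ℝ)) := by
    intro l q μ W hD a
    obtain ⟨hρ0, hρ1⟩ := rho01 hD.pos
    refine ⟨fun e he => ?_, ?_, ?_⟩
    · obtain ⟨C, c, hC, hc0, hT⟩ := hvia hD e.toNat
      have heR : e ≤ ((max R0 e.toNat : ℕ) : ℤ) := by
        have : ((e.toNat : ℕ) : ℤ) ≤ ((max R0 e.toNat : ℕ) : ℤ) := by exact_mod_cast le_max_right R0 e.toNat
        have h2 := Int.toNat_of_nonneg he.le
        omega
      have hM : Mn (ind (fun n : ℕ => Via d m r (max R0 e.toNat) (fun y => y ∈ WithMin d m r e) (n : ℤ))) (D e) := by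
        have h1 := mn_of (hDd e he)
        unfold Pool.Agent.Y965.PL.Mn at h1 ⊢
        refine h1.congr fun X => ?_
        congr 1
        apply Finset.sum_congr rfl
        intro n hn
        have hn0 : (0 : ℤ) < n := by exact_mod_cast (Finset.mem_Icc.1 hn).1
        exact ind_congr (via_min hA (hRm _) hn0 he heR)
      exact along_of (cls_set hρ0.le hρ1 hc0 (hT _ a) hM) fun n hn =>
        and_congr (hcl n) (via_min hA (hRm _) (by exact_mod_cast hn) he heR)
    · obtain ⟨C, c, hC, hc0, hT⟩ := hvia hD 0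
      have hM : Mn (ind (fun n : ℕ => Via d m r (max R0 0) (fun y => y ∈ Leaving d m r) (n : ℤ))) η := by
        have h1 := mn_of hη
        unfold Pool.Agent.Y965.PL.Mn at h1 ⊢
        refine h1.congr fun X => ?_
        congr 1
        apply Finset.sum_congr rfl
        intro n hn
        have hn0 : (0 : ℤ) < n := by exact_mod_cast (Finset.mem_Icc.1 hn).1
        exact ind_congr (via_leave hA (hRm _) hn0)
      exact along_of (cls_set hρ0.le hρ1 hc0 (hT _ a) hM) fun n hn =>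
        and_congr (hcl n) (via_leave hA (hRm _) (by exact_mod_cast hn))
    · obtain ⟨C, c, hC, hc0, _, hT⟩ := inv_ct hA (hDD hD)
      have h1 := (hT 1 (Or.inl rfl) (fun _ => 1) (by simp) (fun _ => rfl) a).congr (G := ind fun _ : ℕ => True)
        (fun n => by rw [ind_pos trivial])
      have hM : Mn (ind fun _ : ℕ => True) 1 := by
        have h2 := Pool.Agent.Y965.PL.Mn_const 1
        unfold Pool.Agent.Y965.PL.Mn at h2 ⊢
        refine h2.congr fun X => ?_
        congr 1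
        apply Finset.sum_congr rfl
        intro n _
        rw [ind_pos trivial]
      have h3 := cls_set hρ0.le hρ1 hc0 h1 hM
      rw [mul_one] at h3
      exact along_of h3 fun n _ => by rw [hcl]; tauto
  refine ⟨fun l q μ W hD Y => ?_, ⟨D, η, hsum, fun l q μ W hD a => ⟨(hclass l q μ W hD a).1, (hclass l q μ W hD a).2.1⟩⟩,
    fun hE => ?_, ?_⟩
  · obtain ⟨C, c, hC, hc0, hT⟩ := hvia hD Y
    refine ⟨C, c, hc0, fun B hB a X hX => ⟨?_, ?_⟩⟩
    · have h1 := (hT (fun y => ∃ e ∈ B, y ∈ WithMin d m r e) a).tr X hX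
      rw [hcnt, count_ind]
      have e : ∀ n ∈ Finset.Icc 1 X, ind (fun n : ℕ => ∃ e ∈ B, (n : ℤ) ∈ WithMin d m r e) n =
          ind (fun n : ℕ => Via d m r (max R0 Y) (fun y => ∃ e ∈ B, y ∈ WithMin d m r e) (n : ℤ)) n := by
        intro n hn
        have hn0 : (0 : ℤ) < n := by exact_mod_cast (Finset.mem_Icc.1 hn).1
        apply ind_congr
        have heR : ∀ e ∈ B, e ≤ ((max R0 Y : ℕ) : ℤ) := by
          intro e he
          have h2 := (hB e he).2
          have h3 : (Y : ℤ) ≤ ((max R0 Y : ℕ) : ℤ) := by exact_mod_cast le_max_right R0 Y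
          omega
        constructor
        · rintro ⟨e, he, h2⟩
          obtain ⟨k, hk, h3⟩ := (via_min hA (hRm Y) hn0 (by have := (hB e he).1; omega) (heR e he)).1 h2
          exact ⟨k, hk, e, he, h3⟩
        · rintro ⟨k, hk, e, he, h3⟩
          exact ⟨e, he, (via_min hA (hRm Y) hn0 (by have := (hB e he).1; omega) (heR e he)).2 ⟨k, hk, h3⟩⟩
      rw [Finset.sum_congr rfl e, Finset.sum_congr rfl fun n hn => by rw [e n hn]]
      exact h1
    · have h1 := (hT (fun y => y ∈ Leaving d m r) a).tr X hX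
      rw [hcnt, count_ind]
      have e : ∀ n ∈ Finset.Icc 1 X, ind (fun n : ℕ => (n : ℤ) ∈ Leaving d m r) n =
          ind (fun n : ℕ => Via d m r (max R0 Y) (fun y => y ∈ Leaving d m r) (n : ℤ)) n := by
        intro n hn
        have hn0 : (0 : ℤ) < n := by exact_mod_cast (Finset.mem_Icc.1 hn).1
        exact ind_congr (via_leave hA (hRm Y) hn0)
      rw [Finset.sum_congr rfl e, Finset.sum_congr rfl fun n hn => by rw [e n hn]]
      exact h1
  · -- the minimum of an orbit which stays positive is exceptional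
    obtain ⟨y, hy⟩ : ∃ y : ℕ, ∀ e ∈ E d m r, e ≤ (y : ℤ) := by
      obtain ⟨b, hb⟩ := hE.bddAbove
      exact ⟨b.toNat, fun e he => (hb he).trans (Int.self_le_toNat b)⟩
    refine ⟨0, fun i => i.elim0, fun i => i.elim0, fun i => i.elim0, fun i => i.elim0, y,
      ⟨fun i => i.elim0, fun i => i.elim0, fun i => i.elim0, fun i => i.elim0, fun i => i.elim0, fun i => i.elim0⟩,
      dens_none fun n hn => ?_⟩
    rintro ⟨_, h⟩
    -- the least term
    obtain ⟨k, hk⟩ : ∃ k : ℕ, ∀ j : ℕ, (T d m r)^[k] (n : ℤ) ≤ (T d m r)^[j] (n : ℤ) := by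
      have hwf := (WellFounded.min_mem (r := (· < · : ℕ → ℕ → Prop)) wellFounded_lt
        (Set.range fun j : ℕ => ((T d m r)^[j] (n : ℤ)).toNat) ⟨_, 0, rfl⟩)
      obtain ⟨k, hk⟩ := hwf
      refine ⟨k, fun j => ?_⟩
      have h1 := WellFounded.not_lt_min (r := (· < · : ℕ → ℕ → Prop)) wellFounded_lt
        (x := ((T d m r)^[j] (n : ℤ)).toNat) (s := Set.range fun j : ℕ => ((T d m r)^[j] (n : ℤ)).toNat) ⟨j, rfl⟩
      rw [← hk] at h1
      have h2 := h k
      have h3 := h j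
      simp only at h1
      omega
    have hk0 := h k
    set e := (T d m r)^[k] (n : ℤ) with he
    have hepos : 0 < e := by
      have : (0 : ℤ) ≤ y := Nat.cast_nonneg y
      omega
    have hmin : ∀ j : ℕ, e ≤ (T d m r)^[j] e := by
      intro j
      rw [he, ← Function.iterate_add_apply]
      exact hk _
    have hnd : ¬ (d : ℤ) ∣ e := by
      intro hdvd
      have h1 := hmin 1
      rw [Function.iterate_one] at h1
      unfold T at h1
      rw [if_pos hdvd] at h1
      have hd1 : (2 : ℤ) ≤ d := by exact_mod_cast hd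
      have h2 : e / d < e := Int.ediv_lt_of_lt_mul (by omega) (by nlinarith)
      omega
    have heE : e ∈ E d m r := ⟨hepos, hnd, fun j _ _ => hmin j⟩
    have := hy e heE
    omega
  · rintro ⟨l, q, μ, W, a, y, hD, h⟩
    obtain ⟨h1, h2, h3⟩ := hclass l q μ W hD a
    obtain ⟨hρ0, hρ1⟩ := rho01 hD.pos
    set ρ : ℝ := ∏ i, 1 / (μ i : ℝ) with hρ
    -- the class is the disjoint union
    have h4 := dens_sum (Finset.Icc (1 : ℤ) y) (fun e n => InClass μ W a n ∧ (n : ℤ) ∈ WithMin d m r e) (fun e => ρ * D e)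
      (fun e he => h1 e (by have := (Finset.mem_Icc.1 he).1; omega)) (by
        rintro n e _ e' _ ⟨_, g1⟩ ⟨_, g2⟩
        exact min_unique g1 g2)
    have h5 := dens_add h4 h2 (by
      rintro n ⟨e, he, _, g1⟩ ⟨_, k, g2⟩
      have := g1.1 k
      have := (Finset.mem_Icc.1 he).1
      omega)
    have h6 := dens_add h5 h (by
      rintro n (⟨e, he, _, g1⟩ | ⟨_, k, g1⟩) ⟨_, g2⟩
      · obtain ⟨_, k, hk⟩ := g1
        have := g2 k
        rw [hk] at this
        have := (Finset.mem_Icc.1 he).2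
        omega
      · have := g2 k
        have : (0 : ℤ) ≤ y := Nat.cast_nonneg y
        omega)
    have h7 : HasDensity (InClass μ W a) (∑ e ∈ Finset.Icc (1 : ℤ) y, ρ * D e + ρ * η + 0) := by
      refine dens_iff h6 fun n hn => ?_
      constructor
      · rintro ((⟨_, _, g, _⟩ | ⟨g, _⟩) | ⟨g, _⟩) <;> exact g
      · intro g
        by_cases hl : (n : ℤ) ∈ Leaving d m r
        · exact Or.inl (Or.inr ⟨g, hl⟩)
        · have hpos : ∀ k : ℕ, 0 < (T d m r)^[k] (n : ℤ) := by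
            intro k
            by_contra hcon
            exact hl ⟨k, not_lt.1 hcon⟩
          obtain ⟨k, hk⟩ : ∃ k : ℕ, ∀ j : ℕ, (T d m r)^[k] (n : ℤ) ≤ (T d m r)^[j] (n : ℤ) := by
            have hwf := (WellFounded.min_mem (r := (· < · : ℕ → ℕ → Prop)) wellFounded_lt
              (Set.range fun j : ℕ => ((T d m r)^[j] (n : ℤ)).toNat) ⟨_, 0, rfl⟩)
            obtain ⟨k, hk⟩ := hwf
            refine ⟨k, fun j => ?_⟩
            have h1 := WellFounded.not_lt_min (r := (· < · : ℕ → ℕ → Prop)) wellFounded_lt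
              (x := ((T d m r)^[j] (n : ℤ)).toNat) (s := Set.range fun j : ℕ => ((T d m r)^[j] (n : ℤ)).toNat) ⟨j, rfl⟩
            rw [← hk] at h1
            have h2 := hpos k
            have h3 := hpos j
            simp only at h1
            omega
          rcases le_or_gt ((T d m r)^[k] (n : ℤ)) y with g1 | g1
          · exact Or.inl (Or.inl ⟨(T d m r)^[k] (n : ℤ), Finset.mem_Icc.2 ⟨hpos k, g1⟩, g, hk, k, rfl⟩)
          · exact Or.inr ⟨g, fun j => lt_of_lt_of_le g1 (hk j)⟩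
    have h8 := dens_unique h7 h3
    rw [add_zero, ← Finset.mul_sum] at h8
    have h9 : ∑ e ∈ Finset.Icc (1 : ℤ) y, D e = 1 - η := by
      have : ρ * (∑ e ∈ Finset.Icc (1 : ℤ) y, D e + η) = ρ * 1 := by linarith
      have := mul_left_cancel₀ hρ0.ne' this
      linarith
    -- the exceptional elements with positive density are at most `y`
    have hD0 : ∀ e : ℤ, 0 < e → 0 ≤ D e := by
      intro e he
      refine ge_of_tendsto (mn_of (hDd e he)) ?_
      filter_upwards with X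
      apply div_nonneg _ (Nat.cast_nonneg _)
      exact Finset.sum_nonneg fun n _ => ind_nonneg _ n
    have hDE : ∀ e : ℤ, 0 < e → 0 < D e → e ∈ E d m r := by
      intro e he h0
      obtain ⟨g1, _⟩ := (hDpos e he).1 h0
      refine ⟨he, ?_, fun k _ _ => g1 k⟩
      intro hdvd
      have g2 : e ≤ T d m r e := g1 1
      unfold T at g2
      rw [if_pos hdvd] at g2
      have hd1 : (2 : ℤ) ≤ d := by exact_mod_cast hd
      have h2 : e / d < e := Int.ediv_lt_of_lt_mul (by omega) (by nlinarith)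
      omega
    have hbig : ∀ e ∈ E d m r, 0 < D e → e ≤ y := by
      intro e he h0
      by_contra hcon
      push Not at hcon
      -- the finite sum over the exceptional elements at most `y` and `e`
      set F : Finset (E d m r) := ((Finset.Icc (1 : ℤ) y).subtype fun x => x ∈ E d m r) with hF
      have hmem : (⟨e, he⟩ : E d m r) ∉ F := by
        rw [hF, Finset.mem_subtype, Finset.mem_Icc]
        rintro ⟨_, g⟩
        exact absurd g (not_le.2 hcon)
      have g1 := sum_le_hasSum (insert (⟨e, he⟩ : E d m r) F) (fun i _ => hD0 i.1 i.2.1) hsum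
      rw [Finset.sum_insert hmem] at g1
      have g2 : ∑ x ∈ F, D (x : ℤ) = ∑ x ∈ Finset.Icc (1 : ℤ) y, D x := by
        rw [hF, Finset.sum_subtype_eq_sum_filter, Finset.sum_filter]
        apply Finset.sum_congr rfl
        intro x hx
        split_ifs with hxE
        · rfl
        · have hx0 : 0 < x := by have := (Finset.mem_Icc.1 hx).1; omega
          by_contra hcon2
          exact hxE (hDE x hx0 (lt_of_le_of_ne (hD0 x hx0) (fun g => hcon2 g)))
      rw [g2, h9] at g1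
      simp only at g1
      linarith
    refine hfin.2 ?_
    set P : Finset ℤ := (Finset.Icc (1 : ℤ) y).filter fun e => 0 < D e with hP
    by_cases hne : P.Nonempty
    · refine ⟨P.inf' hne D, ?_, fun e he h0 => ?_⟩
      · rw [Finset.lt_inf'_iff]
        intro e he
        exact (Finset.mem_filter.1 he).2
      · apply Finset.inf'_le
        rw [hP, Finset.mem_filter, Finset.mem_Icc]
        exact ⟨⟨he.1, hbig e he h0⟩, h0⟩
    · refine ⟨1, one_pos, fun e he h0 => ?_⟩
      exfalso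
      apply hne
      refine ⟨e, ?_⟩
      rw [hP, Finset.mem_filter, Finset.mem_Icc]
      exact ⟨⟨he.1, hbig e he h0⟩, h0⟩

end Pool.Agent.Results.MP_fd8838_nt.DigitClassesMinima
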