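import Pool.Agent.Run7.h792.FL.Inv
import Pool.Agent.Results.MP_fd8838_nt.LawOfMinima

set_option autoImplicit false

/-!
# The minima of the orbits of the maps of Möller and functions modulo large numbers

Let `d, m ≥ 2` be coprime, `m ≤ d ^ (d / (d - 1))`, let `R` be admissible and fix `0 < ε < 1`. At the scale `N`, the
minima of the `T`-orbits of the integers `n ≤ N` are independent, with a power saving, of every function of `n`
modulo a `q` between `N ^ ε` and `N ^ (1 - ε)`, coprime to `d`, whose Fourier coefficients at the nonzero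
frequencies are at most `q ^ (1 / 2 + η)`. So the minima are distributed in every set of residues of this kind,
for example in the quadratic residues modulo a prime between `N ^ ε` and `N ^ (1 - ε)`, as among all the
integers `n ≤ N`, and such sets at infinitely many scales decide the finiteness of the exceptional set.

Method: the dispersion argument of `Pool.Agent.Run7.h439.DC.Orth` at a level which is a small proportion of
`log q`; the correlations of the function along the progressions modulo the powers of `d` are, up to `O(q)`,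
autocorrelations over whole periods, and the sum of the squares of the latter is bounded by Parseval.
-/

namespace Pool.Agent.Results.MP_fd8838_nt.FlatResidues

open Filter Topology

/-- the map `T(n) = n / d` if `d ∣ n` and `(m n - r_j) / d` if `n ≡ j mod d`, `1 ≤ j < d`; the points of a
`T`-orbit that are not divisible by `d` form the `H`-orbit -/
def T (d m : ℕ) (r : ℕ → ℤ) (n : ℤ) : ℤ :=
  if (d : ℤ) ∣ n then n / d else (m * n - r (n % d).toNat) / d

/-- the exceptional set `E(d, m, R)`, in terms of `T`: the integers `e > 0` not divisible by `d` such that,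
as long as the orbit of `e` stays positive, its terms not divisible by `d` (the terms of the `H`-orbit)
are `≥ e` -/
def E (d m : ℕ) (r : ℕ → ℤ) : Set ℤ :=
  {e : ℤ | 0 < e ∧ ¬ (d : ℤ) ∣ e ∧ ∀ k : ℕ, (∀ j ≤ k, 0 < (T d m r)^[j] e) →
    ¬ (d : ℤ) ∣ (T d m r)^[k] e → e ≤ (T d m r)^[k] e}

/-- the integers whose `T`-orbit has minimum `e` -/
def WithMin (d m : ℕ) (r : ℕ → ℤ) (e : ℤ) : Set ℤ :=
  {n : ℤ | (∀ k : ℕ, e ≤ (T d m r)^[k] n) ∧ ∃ k : ℕ, (T d m r)^[k] n = e}

/-- the integers whose `T`-orbit leaves the positive integers -/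
def Leaving (d m : ℕ) (r : ℕ → ℤ) : Set ℤ := {n : ℤ | ∃ k : ℕ, (T d m r)^[k] n ≤ 0}

/-- The values of `f` are in `[-1, 1]`, and `f n` depends only on the minimum of the `T`-orbit of `n` as long
as this minimum is in `[1, Y]`; `f` is constant on the set of the integers whose orbits leave the positive
integers, and on the set of those whose orbits stay in the integers larger than `Y`. -/
structure OfMinimum (d m : ℕ) (r : ℕ → ℤ) (Y : ℕ) (f : ℤ → ℝ) : Prop where
  bounded : ∀ x, |f x| ≤ 1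
  min : ∀ e : ℤ, 1 ≤ e → e ≤ Y → ∀ x ∈ WithMin d m r e, ∀ y ∈ WithMin d m r e, f x = f y
  leaving : ∀ x ∈ Leaving d m r, ∀ y ∈ Leaving d m r, f x = f y
  large : ∀ x y : ℤ, (∀ k : ℕ, (Y : ℤ) < (T d m r)^[k] x) → (∀ k : ℕ, (Y : ℤ) < (T d m r)^[k] y) → f x = f y

/-- `f` has period `q`, values of modulus at most `1`, and its Fourier coefficients at the nonzero
frequencies have modulus at most `q ^ (1 / 2 + η)`. -/
structure Flat (q : ℕ) (η : ℝ) (f : ℕ → ℂ) : Prop where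
  bounded : ∀ n, ‖f n‖ ≤ 1
  periodic : ∀ n, f (n + q) = f n
  fourier : ∀ h : ℕ, 0 < h → h < q →
    ‖∑ a ∈ Finset.range q, f a * Complex.exp (2 * Real.pi * Complex.I * (h * a) / q)‖ ≤ (q : ℝ) ^ (1 / 2 + η)

/-- the mean value of a function with period `q` -/
noncomputable def mean (q : ℕ) (f : ℕ → ℂ) : ℂ := (∑ a ∈ Finset.range q, f a) / q

/-- `A` is a subset of `{0, ..., q - 1}`, and the indicator function of the integers which are congruent to
an element of `A` modulo `q` is `Flat`. -/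
def FlatSet (q : ℕ) (η : ℝ) (A : Finset ℕ) : Prop :=
  A ⊆ Finset.range q ∧ Flat q η (fun n => if n % q ∈ A then 1 else 0)

/-- `q` is coprime to `d` and `N ^ ε ≤ q ≤ N ^ (1 - ε)`. -/
def InRange (d : ℕ) (ε : ℝ) (N q : ℕ) : Prop := Nat.Coprime d q ∧ (N : ℝ) ^ ε ≤ q ∧ (q : ℝ) ≤ (N : ℝ) ^ (1 - ε)

/-- the number of the `1 ≤ n ≤ X` with the property `P` -/
noncomputable def count (P : ℕ → Prop) (X : ℕ) : ℝ := (Set.ncard {n : ℕ | 1 ≤ n ∧ n ≤ X ∧ P n} : ℝ)

/-- The set of the positive integers with the property `P` has natural density `δ`. -/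
def HasDensity (P : ℕ → Prop) (δ : ℝ) : Prop := Tendsto (fun X : ℕ => count P X / X) atTop (𝓝 δ)

open Pool.Agent.Run7.h792.FL
open Pool.Agent.Run7.h439.DC
open Pool.Agent.H319R3.GC (Tm Adm Mw wd Mw_cons)
open Pool.Agent.Y965.PL (Mn MnS ind ind_pos ind_neg ind_congr ind_nonneg)
open Pool.Agent.Results.MP_fd8838_nt.LawOfMinima (r0)
open Pool.Agent.TH930.GH (mq)

theorem T_eq (d m : ℕ) (hd : 2 ≤ d) (r : ℕ → ℤ) : Tm d (mq m) (r0 r) = T d m r :=
  (Pool.Agent.Results.MP_fd8838_nt.LawOfMinima.T_eq d m hd r).symm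

theorem count_ind (P : ℕ → Prop) (X : ℕ) : count P X = ∑ n ∈ Finset.Icc 1 X, ind P n := by
  classical
  unfold count ind
  rw [Finset.sum_boole]
  have e : {n : ℕ | 1 ≤ n ∧ n ≤ X ∧ P n} = ((Finset.Icc 1 X).filter fun n => P n : Finset ℕ) := by
    ext n
    simp only [Set.mem_ofPred_eq, Finset.coe_filter, Finset.mem_Icc, and_assoc]
  rw [e, Set.ncard_coe_finset]

theorem along_of {P Q : ℕ → Prop} {d : ℝ} (h : Mn (ind Q) d) (hPQ : ∀ n, 1 ≤ n → (P n ↔ Q n)) : HasDensity P d := by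
  unfold HasDensity
  unfold Mn at h
  refine h.congr fun X => ?_
  rw [count_ind P X]
  congr 1
  apply Finset.sum_congr rfl
  intro n hn
  exact ind_congr (hPQ _ (Finset.mem_Icc.1 hn).1).symm

theorem dens_unique {P : ℕ → Prop} {a b : ℝ} (h : HasDensity P a) (h' : HasDensity P b) : a = b := tendsto_nhds_unique h h'

theorem dens_iff {P Q : ℕ → Prop} {δ : ℝ} (h : HasDensity P δ) (hPQ : ∀ n, 1 ≤ n → (P n ↔ Q n)) : HasDensity Q δ := by
  unfold HasDensity at h ⊢
  refine h.congr fun X => ?_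
  have e : {n : ℕ | 1 ≤ n ∧ n ≤ X ∧ P n} = {n : ℕ | 1 ≤ n ∧ n ≤ X ∧ Q n} := by
    ext n
    simp only [Set.mem_ofPred_eq]
    constructor
    · rintro ⟨h1, h2, h3⟩; exact ⟨h1, h2, (hPQ n h1).1 h3⟩
    · rintro ⟨h1, h2, h3⟩; exact ⟨h1, h2, (hPQ n h1).2 h3⟩
  unfold count
  rw [e]

theorem dens_add {P Q : ℕ → Prop} {a b : ℝ} (h : HasDensity P a) (h' : HasDensity Q b) (hd : ∀ n, P n → ¬ Q n) :
    HasDensity (fun n => P n ∨ Q n) (a + b) := by
  unfold HasDensity at h h' ⊢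
  refine (h.add h').congr fun X => ?_
  have e : {n : ℕ | 1 ≤ n ∧ n ≤ X ∧ (P n ∨ Q n)} = {n : ℕ | 1 ≤ n ∧ n ≤ X ∧ P n} ∪ {n : ℕ | 1 ≤ n ∧ n ≤ X ∧ Q n} := by
    ext n
    simp only [Set.mem_ofPred_eq, Set.mem_union]
    tauto
  unfold count
  rw [e, Set.ncard_union_eq _ ((Set.finite_Iic X).subset fun n hn => hn.2.1) ((Set.finite_Iic X).subset fun n hn => hn.2.1)]
  · push_cast; ring
  · rw [Set.disjoint_left]
    rintro n ⟨_, _, h1⟩ ⟨_, _, h2⟩
    exact hd n h1 h2

theorem dens_none {P : ℕ → Prop} (h : ∀ n, 1 ≤ n → ¬ P n) : HasDensity P 0 := by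
  unfold HasDensity
  refine tendsto_const_nhds.congr fun N => ?_
  have e : {n : ℕ | 1 ≤ n ∧ n ≤ N ∧ P n} = ∅ := by
    rw [Set.eq_empty_iff_forall_notMem]
    rintro n ⟨h1, _, hn⟩
    exact h n h1 hn
  unfold count
  rw [e]
  simp

theorem dens_sum {ι : Type*} (A : Finset ι) (P : ι → ℕ → Prop) (a : ι → ℝ) (h : ∀ i ∈ A, HasDensity (P i) (a i))
    (hd : ∀ n, ∀ i ∈ A, ∀ j ∈ A, P i n → P j n → i = j) : HasDensity (fun n => ∃ i ∈ A, P i n) (∑ i ∈ A, a i) := by
  classical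
  induction A using Finset.induction_on with
  | empty =>
    rw [Finset.sum_empty]
    exact dens_none fun n _ => by rintro ⟨i, hi, _⟩; simp at hi
  | insert i A hi ih =>
    rw [Finset.sum_insert hi]
    have h1 := dens_add (h i (Finset.mem_insert_self i A)) (ih (fun j hj => h j (Finset.mem_insert_of_mem hj))
      (fun n j hj k hk => hd n j (Finset.mem_insert_of_mem hj) k (Finset.mem_insert_of_mem hk))) (by
      rintro n hn ⟨j, hj, hjn⟩
      have := hd n i (Finset.mem_insert_self i A) j (Finset.mem_insert_of_mem hj) hn hjn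
      subst this
      exact hi hj)
    refine dens_iff h1 fun n _ => ?_
    constructor
    · rintro (h2 | ⟨j, hj, h2⟩)
      · exact ⟨i, Finset.mem_insert_self i A, h2⟩
      · exact ⟨j, Finset.mem_insert_of_mem hj, h2⟩
    · rintro ⟨j, hj, h2⟩
      rcases Finset.mem_insert.1 hj with rfl | hj
      · exact Or.inl h2
      · exact Or.inr ⟨j, hj, h2⟩

theorem mn_of {S : Set ℤ} {δ : ℝ} (h : Pool.Agent.Results.MP_fd8838_nt.LawOfMinima.HasDensity S δ) :
    Mn (ind (fun n : ℕ => (n : ℤ) ∈ S)) δ := by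
  unfold Pool.Agent.Y965.PL.Mn
  refine Filter.Tendsto.congr (fun N => ?_) h
  have h1 := side_count (s := 1) (Or.inl rfl) S N
  simp only [one_mul] at h1
  rw [← h1]
  congr 3
  ext x
  simp only [Set.mem_ofPred_eq]
  constructor
  · rintro ⟨h1, h2, h3⟩; exact ⟨by omega, h3, h1⟩
  · rintro ⟨h1, h2, h3⟩; exact ⟨h3, by omega, h2⟩

/-- the properties of the first term in `[-R, R]` -/
def Via (d m : ℕ) (r : ℕ → ℤ) (R : ℕ) (Q : ℤ → Prop) (x : ℤ) : Prop :=
  ∃ k, FE (T d m r) (fun y => |y| ≤ (R : ℤ)) k x ∧ Q ((T d m r)^[k] x)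

theorem via_ef {d m : ℕ} (hd : 2 ≤ d) (r : ℕ → ℤ) (R : ℕ) (Q : ℤ → Prop) :
    EF d (mq m) (r0 r) 1 (fun y => |y| ≤ (R : ℤ)) (ind (fun n : ℕ => Via d m r R Q (n : ℤ))) := by
  classical
  refine ⟨fun n => by unfold ind; split_ifs <;> simp, fun k n n' h1 h2 _ h4 => ?_, fun n n' h1 h2 => ?_⟩
  · rw [T_eq d m hd, one_mul] at h1 h2
    rw [T_eq d m hd, one_mul, one_mul] at h4
    apply ind_congr
    unfold Via
    constructor
    · rintro ⟨j, hj, hQ⟩
      have := FE_unique hj h1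
      subst this
      exact ⟨j, h2, by rw [← h4]; exact hQ⟩
    · rintro ⟨j, hj, hQ⟩
      have := FE_unique hj h2
      subst this
      exact ⟨j, h1, by rw [h4]; exact hQ⟩
  · rw [T_eq d m hd, one_mul] at h1 h2
    rw [ind_neg, ind_neg]
    · rintro ⟨j, hj, _⟩; exact h2 j hj
    · rintro ⟨j, hj, _⟩; exact h1 j hj

/-- large terms are followed by positive terms -/
theorem step_pos {d m : ℕ} {r : ℕ → ℤ} (hA : Adm d (mq m) (r0 r)) {R : ℕ} (hR : ∀ j < d, |r j| ≤ (R : ℤ)) {x : ℤ}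
    (hx : (R : ℤ) < x) : 0 < T d m r x := by
  have hd := hA.two_le
  have h1 := Pool.Agent.H319R3.GC.iter_eq hA 1 x
  obtain ⟨_, h3⟩ := Pool.Agent.Y965.GP.mod_toNat hA.two_le x
  set i := (x % (d : ℤ)).toNat with hi
  have e1 : Mw (mq m) (wd d (mq m) (r0 r) 1 x) = mq m i := by simp [wd, Mw, hi]
  have e2 : Pool.Agent.H319R3.GC.Ww d (mq m) (r0 r) (wd d (mq m) (r0 r) 1 x) = r0 r i := by
    simp [wd, Pool.Agent.H319R3.GC.Ww, Mw, hi]
  rw [e1, e2, pow_one, Function.iterate_one, T_eq d m hd] at h1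
  have h0 : 0 ≤ (R : ℤ) := Nat.cast_nonneg R
  have hm1 : 1 ≤ mq m i := by
    unfold Pool.Agent.TH930.GH.mq
    split_ifs with h
    · exact le_rfl
    · have h5 := hA.cop i h3
      unfold Pool.Agent.TH930.GH.mq at h5
      rw [if_neg h] at h5
      by_contra hcon
      have h6 : m = 0 := by omega
      rw [h6] at h5
      have h7 : IsUnit (d : ℤ) := by
        have h8 : IsCoprime (0 : ℤ) (d : ℤ) := by simpa using h5
        exact isCoprime_zero_left.1 h8
      rw [Int.isUnit_iff] at h7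
      omega
  have hr0 : r0 r i ≤ (R : ℤ) := by
    unfold Pool.Agent.Results.MP_fd8838_nt.LawOfMinima.r0
    split_ifs
    · exact h0
    · exact (le_abs_self _).trans (hR i h3)
  have h5 : 0 < (d : ℤ) * T d m r x := by
    rw [h1]
    have : x ≤ mq m i * x := le_mul_of_one_le_left (by omega) hm1
    omega
  have hd0 : (0 : ℤ) < d := by omega
  exact (mul_pos_iff_of_pos_left hd0).1 h5

/-- the terms before the first term in `[-R, R]` are larger than `R` -/
theorem before {d m : ℕ} {r : ℕ → ℤ} (hA : Adm d (mq m) (r0 r)) {R : ℕ} (hR : ∀ j < d, |r j| ≤ (R : ℤ)) {x : ℤ} (hx : 0 < x)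
    {k : ℕ} (hk : ∀ i < k, ¬ |(T d m r)^[i] x| ≤ (R : ℤ)) : ∀ i < k, (R : ℤ) < (T d m r)^[i] x := by
  intro i
  induction i with
  | zero =>
    intro h
    have h1 := hk 0 h
    rw [Function.iterate_zero, id_eq, abs_of_pos hx] at h1
    rw [Function.iterate_zero, id_eq]
    omega
  | succ i ih =>
    intro h
    have h1 := ih (by omega)
    have h2 : 0 < (T d m r)^[i + 1] x := by
      rw [Function.iterate_succ_apply']
      exact step_pos hA hR h1
    have h3 := hk _ h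
    rw [abs_of_pos h2] at h3
    exact not_le.1 h3

theorem via_min {d m : ℕ} {r : ℕ → ℤ} (hA : Adm d (mq m) (r0 r)) {R : ℕ} (hR : ∀ j < d, |r j| ≤ (R : ℤ)) {x : ℤ} (hx : 0 < x)
    {e : ℤ} (he0 : 0 < e) (he : e ≤ R) : x ∈ WithMin d m r e ↔ Via d m r R (fun y => y ∈ WithMin d m r e) x := by
  constructor
  · rintro ⟨h1, j, hj⟩
    obtain ⟨k, hk⟩ := (FE_iff (T := T d m r) (A := fun y => |y| ≤ (R : ℤ)) (x := x)).1
      ⟨j, by show |(T d m r)^[j] x| ≤ (R : ℤ); rw [hj, abs_of_pos he0]; exact he⟩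
    have hkj : k ≤ j := by
      by_contra hcon
      have := hk.2 j (not_le.1 hcon)
      apply this
      show |(T d m r)^[j] x| ≤ (R : ℤ)
      rw [hj, abs_of_pos he0]; exact he
    refine ⟨k, hk, fun i => ?_, j - k, ?_⟩
    · rw [← Function.iterate_add_apply]; exact h1 _
    · rw [← Function.iterate_add_apply, Nat.sub_add_cancel hkj]; exact hj
  · rintro ⟨k, hk, h1, j, hj⟩
    have hb := before hA hR hx hk.2
    refine ⟨fun i => ?_, j + k, by rw [Function.iterate_add_apply]; exact hj⟩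
    rcases lt_or_ge i k with h | h
    · have := hb i h
      omega
    · have := h1 (i - k)
      rw [← Function.iterate_add_apply, Nat.sub_add_cancel h] at this
      exact this

theorem via_leave {d m : ℕ} {r : ℕ → ℤ} (hA : Adm d (mq m) (r0 r)) {R : ℕ} (hR : ∀ j < d, |r j| ≤ (R : ℤ)) {x : ℤ} (hx : 0 < x) :
    x ∈ Leaving d m r ↔ Via d m r R (fun y => y ∈ Leaving d m r) x := by
  constructor
  · rintro ⟨j, hj⟩
    have hex : ∃ k, (fun y => |y| ≤ (R : ℤ)) ((T d m r)^[k] x) := by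
      by_contra hcon
      push Not at hcon
      have := before hA hR hx (k := j + 1) (fun i _ => not_le.2 (hcon i)) j (by omega)
      omega
    obtain ⟨k, hk⟩ := (FE_iff (T := T d m r) (A := fun y => |y| ≤ (R : ℤ)) (x := x)).1 hex
    have hkj : k ≤ j := by
      by_contra hcon
      have := before hA hR hx hk.2 j (not_le.1 hcon)
      omega
    exact ⟨k, hk, j - k, by rw [← Function.iterate_add_apply, Nat.sub_add_cancel hkj]; exact hj⟩
  · rintro ⟨k, hk, j, hj⟩
    exact ⟨j + k, by rw [Function.iterate_add_apply]; exact hj⟩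

theorem min_unique {d m : ℕ} {r : ℕ → ℤ} {e e' x : ℤ} (h : x ∈ WithMin d m r e) (h' : x ∈ WithMin d m r e') : e = e' := by
  obtain ⟨h1, j, hj⟩ := h
  obtain ⟨h1', j', hj'⟩ := h'
  have a1 := h1 j'
  have a2 := h1' j
  rw [hj'] at a1
  rw [hj] at a2
  omega

/-- an orbit in the positive integers has a minimum -/
theorem exists_min {d m : ℕ} {r : ℕ → ℤ} {x : ℤ} (h : ∀ k : ℕ, 0 < (T d m r)^[k] x) :
    ∃ k : ℕ, x ∈ WithMin d m r ((T d m r)^[k] x) := by
  have hwf := (WellFounded.min_mem (r := (· < · : ℕ → ℕ → Prop)) wellFounded_lt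
    (Set.range fun j : ℕ => ((T d m r)^[j] x).toNat) ⟨_, 0, rfl⟩)
  obtain ⟨k, hk⟩ := hwf
  refine ⟨k, fun j => ?_, k, rfl⟩
  have h1 := WellFounded.not_lt_min (r := (· < · : ℕ → ℕ → Prop)) wellFounded_lt
    (x := ((T d m r)^[j] x).toNat) (s := Set.range fun j : ℕ => ((T d m r)^[j] x).toNat) ⟨j, rfl⟩
  rw [← hk] at h1
  have h2 := h k
  have h3 := h j
  simp only at h1
  omega

theorem zero_leaving {d m : ℕ} {r : ℕ → ℤ} : (0 : ℤ) ∈ Leaving d m r := ⟨0, le_rfl⟩

/-- functions of the minimum are functions of the first term in `[-R, R]` -/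
theorem of_ef {d m : ℕ} {r : ℕ → ℤ} (hA : Adm d (mq m) (r0 r)) {R Y : ℕ} (hR : ∀ j < d, |r j| ≤ (R : ℤ)) (hY : Y ≤ R)
    {f : ℤ → ℝ} (hf : OfMinimum d m r Y f) :
    EF d (mq m) (r0 r) 1 (fun y => |y| ≤ (R : ℤ)) (fun n => f (n : ℤ)) := by
  have hd := hA.two_le
  have hYR : (Y : ℤ) ≤ (R : ℤ) := by exact_mod_cast hY
  have h00 : (0 : ℤ) ≤ (R : ℤ) := Nat.cast_nonneg R
  have hfe0 : ∀ k : ℕ, FE (T d m r) (fun y => |y| ≤ (R : ℤ)) k 0 → k = 0 := by
    intro k hk
    refine FE_unique hk ⟨?_, fun i hi => absurd hi (Nat.not_lt_zero i)⟩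
    show |(0 : ℤ)| ≤ R
    rw [abs_zero]; exact h00
  refine ⟨fun n => hf.bounded _, fun k n n' h1 h2 _ h4 => ?_, fun n n' h1 h2 => ?_⟩
  · rw [T_eq d m hd, one_mul] at h1 h2
    rw [T_eq d m hd, one_mul, one_mul] at h4
    rcases Nat.eq_zero_or_pos n with hn | hn
    · rw [hn, Nat.cast_zero] at h1 h4
      have := hfe0 k h1
      subst this
      rw [Function.iterate_zero, id_eq, id_eq] at h4
      show f ((n : ℕ) : ℤ) = f ((n' : ℕ) : ℤ)
      rw [hn, Nat.cast_zero, h4]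
    rcases Nat.eq_zero_or_pos n' with hn' | hn'
    · rw [hn', Nat.cast_zero] at h2 h4
      have := hfe0 k h2
      subst this
      rw [Function.iterate_zero, id_eq, id_eq] at h4
      show f ((n : ℕ) : ℤ) = f ((n' : ℕ) : ℤ)
      rw [hn', Nat.cast_zero, h4]
    have hn0 : (0 : ℤ) < n := by exact_mod_cast hn
    have hn0' : (0 : ℤ) < n' := by exact_mod_cast hn'
    set y := (T d m r)^[k] (n : ℤ) with hy
    by_cases hl : y ∈ Leaving d m r
    · exact hf.leaving _ ((via_leave hA hR hn0).2 ⟨k, h1, hl⟩) _ ((via_leave hA hR hn0').2 ⟨k, h2, by rw [← h4]; exact hl⟩)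
    · have hpos : ∀ i : ℕ, 0 < (T d m r)^[i] y := by
        intro i
        by_contra hcon
        exact hl ⟨i, not_lt.1 hcon⟩
      obtain ⟨j, hj⟩ := exists_min hpos
      set e := (T d m r)^[j] y with he
      have he0 : 0 < e := hpos j
      have heR : e ≤ R := by
        have g1 := hj.1 0
        rw [Function.iterate_zero, id_eq] at g1
        have g2 : |y| ≤ (R : ℤ) := h1.1
        exact g1.trans ((le_abs_self y).trans g2)
      have a1 := (via_min hA hR hn0 he0 heR).2 ⟨k, h1, hj⟩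
      have a2 := (via_min hA hR hn0' he0 heR).2 ⟨k, h2, by rw [← h4]; exact hj⟩
      rcases le_or_gt e (Y : ℤ) with g | g
      · exact hf.min e (by omega) g _ a1 _ a2
      · exact hf.large _ _ (fun i => lt_of_lt_of_le g (a1.1 i)) (fun i => lt_of_lt_of_le g (a2.1 i))
  · rw [T_eq d m hd, one_mul] at h1 h2
    have hmiss : ∀ n : ℕ, (∀ k, ¬ FE (T d m r) (fun y => |y| ≤ (R : ℤ)) k (n : ℤ)) → ∀ i : ℕ, (Y : ℤ) < (T d m r)^[i] (n : ℤ) := by
      intro n h i
      have hno : ∀ j : ℕ, ¬ |(T d m r)^[j] (n : ℤ)| ≤ (R : ℤ) := by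
        intro j hj
        obtain ⟨k, hk⟩ := (FE_iff (T := T d m r) (A := fun y => |y| ≤ (R : ℤ)) (x := (n : ℤ))).1 ⟨j, hj⟩
        exact h k hk
      have hn0 : (0 : ℤ) < n := by
        have g := hno 0
        rw [Function.iterate_zero, id_eq] at g
        rcases Nat.eq_zero_or_pos n with hn | hn
        · rw [hn, Nat.cast_zero, abs_zero] at g
          exact absurd h00 g
        · exact_mod_cast hn
      have g := before hA hR hn0 (k := i + 1) (fun j _ => hno j) i (Nat.lt_succ_self i)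
      omega
    exact hf.large _ _ (hmiss n h1) (hmiss n' h2)

/-- MINIMA OF THE ORBITS AND FUNCTIONS MODULO LARGE NUMBERS. Let `d, m ≥ 2` be coprime with
`m ≤ d ^ (d / (d - 1))`, and let `R` be admissible. The set of the `n > 0` whose `T`-orbit has minimum `e` has a
natural density `D e`, and the set of those whose orbit leaves the positive integers has a natural density `L`;
the sum of the `D e` over the exceptional set is `1 - L`. Let `0 < ε < 1` and `Y ≥ 0`. There are `η`, `c`, `K > 0` with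
the following properties; `N ≥ 1`, and `q` is coprime to `d` with `N ^ ε ≤ q ≤ N ^ (1 - ε)`.

(1) (Uniform transfer.) For every `g` with period `q` and modulus at most `1` whose Fourier coefficients at
the nonzero frequencies are at most `q ^ (1 / 2 + η)`, all functions `f` of the minimum (where those larger than
`Y` are not distinguished) and all `X ≤ N` the sum over the `n ≤ X` of `f(n)` times `g(n)` minus the mean value
of `g` has modulus at most `K N ^ (1 - c)`.

(2) For `0 ≤ v < c`, `τ > 0`, all large `N`, all `q` and all flat sets `A` of residues modulo `q` with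
`|A| ≥ q N ^ (-v)`, up to `τ |A| / q * N`: the number of the `n ≤ N` in the classes of `A` whose orbit has
minimum `e` is `D e * |A| / q * N`, for `1 ≤ e ≤ Y`, and the number of those whose orbit leaves the positive
integers is `L |A| / q * N`.

(3) Let `0 ≤ v < c`. If there are for infinitely many `N` a number `q` and a flat `A` with `|A| ≥ q N ^ (-v)` such
that the orbits of all but `o(|A| / q * N)` of the `n ≤ N` in the classes of `A` have a term `≤ Y`, then the
exceptional set is finite (this is what Q1 asserts for `d`, `m` and `R`).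

(4) (Examples.) The hypothesis on `g` holds for the primitive Dirichlet characters modulo `q`, for
`exp (2 π i (a n ^ 2 + b n) / q)` with `q` odd and `a` coprime to `q`, and the hypothesis on `A` holds if `q = p` is
prime and `A` is invariant under multiplication by the `k`-th powers coprime to `p`, where `k + 1 ≤ p ^ (2 η)`. -/
theorem result (d m : ℕ) (hd : 2 ≤ d) (hm : 2 ≤ m) (hc : Nat.Coprime m d)
    (hle : (m : ℝ) ≤ (d : ℝ) ^ ((d : ℝ) / ((d : ℝ) - 1))) (r : ℕ → ℤ)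
    (hr : ∀ j : ℕ, 1 ≤ j → j < d → r j ≡ m * j [ZMOD d]) :
    ∃ (D : ℤ → ℝ) (L : ℝ), HasSum (fun e : E d m r => D e) (1 - L) ∧
    (∀ e : ℤ, 0 < e → HasDensity (fun n => (n : ℤ) ∈ WithMin d m r e) (D e)) ∧
    HasDensity (fun n => (n : ℤ) ∈ Leaving d m r) L ∧
    ∀ ε : ℝ, 0 < ε → ε < 1 → ∀ Y : ℕ, ∃ η c K : ℝ, 0 < η ∧ 0 < c ∧ c < 1 ∧ 0 < K ∧
    (∀ N q : ℕ, 1 ≤ N → InRange d ε N q → ∀ g : ℕ → ℂ, Flat q η g → ∀ f : ℤ → ℝ, OfMinimum d m r Y f → ∀ X : ℕ,
      X ≤ N → ‖∑ n ∈ Finset.Icc 1 X, (f n : ℂ) * (g n - mean q g)‖ ≤ K * (N : ℝ) ^ (1 - c)) ∧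
    (∀ v : ℝ, 0 ≤ v → v < c → ∀ τ : ℝ, 0 < τ → ∃ N₀ : ℕ, ∀ N : ℕ, N₀ ≤ N → ∀ q : ℕ, InRange d ε N q →
      ∀ A : Finset ℕ, FlatSet q η A → (q : ℝ) * (N : ℝ) ^ (-v) ≤ A.card →
      (∀ e : ℤ, 1 ≤ e → e ≤ Y →
        |count (fun n => n % q ∈ A ∧ (n : ℤ) ∈ WithMin d m r e) N - D e * (A.card / q * N)| ≤ τ * (A.card / q * N)) ∧
      |count (fun n => n % q ∈ A ∧ (n : ℤ) ∈ Leaving d m r) N - L * (A.card / q * N)| ≤ τ * (A.card / q * N)) ∧
    (∀ v : ℝ, 0 ≤ v → v < c → ∀ ψ : ℕ → ℝ, Tendsto ψ atTop (𝓝 0) →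
      (∃ᶠ N : ℕ in atTop, ∃ q : ℕ, InRange d ε N q ∧ ∃ A : Finset ℕ, FlatSet q η A ∧
        (q : ℝ) * (N : ℝ) ^ (-v) ≤ A.card ∧
        count (fun n => n % q ∈ A ∧ ∀ k : ℕ, (Y : ℤ) < (T d m r)^[k] n) N ≤ ψ N * (A.card / q * N)) →
      (E d m r).Finite) ∧
    (∀ (q : ℕ) (χ : DirichletCharacter ℂ q), 1 ≤ q → χ.IsPrimitive → Flat q η (fun n => χ n)) ∧
    (∀ (q : ℕ) (a b : ℤ), Odd q → IsCoprime a q →
      Flat q η (fun n => Complex.exp (2 * Real.pi * Complex.I * (a * n ^ 2 + b * n) / q))) ∧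
    (∀ p k : ℕ, p.Prime → 1 ≤ k → (k : ℝ) + 1 ≤ (p : ℝ) ^ (2 * η) → ∀ A : Finset ℕ, A ⊆ Finset.range p →
      (∀ b : ℕ, Nat.Coprime b p → ∀ a ∈ A, b ^ k * a % p ∈ A) → FlatSet p η A) := by
  classical
  have hA : Adm d (mq m) (r0 r) := Pool.Agent.Results.MP_fd8838_nt.LawOfMinima.adm hd hm hc hle hr
  obtain ⟨R0, hR0⟩ : ∃ R0 : ℕ, ∀ j < d, |r j| ≤ (R0 : ℤ) := by
    refine ⟨(Finset.range d).sup fun j => (r j).natAbs, fun j hj => ?_⟩
    have h1 : (r j).natAbs ≤ (Finset.range d).sup fun j => (r j).natAbs :=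
      Finset.le_sup (f := fun j => (r j).natAbs) (Finset.mem_range.2 hj)
    rw [Int.abs_eq_natAbs]
    exact_mod_cast h1
  have hRm : ∀ Y : ℕ, ∀ j < d, |r j| ≤ ((max R0 Y : ℕ) : ℤ) := by
    intro Y j hj
    have h1 := hR0 j hj
    have h2 : (R0 : ℤ) ≤ ((max R0 Y : ℕ) : ℤ) := by exact_mod_cast le_max_left R0 Y
    omega
  obtain ⟨_, _, _, hlaw⟩ := Pool.Agent.Results.MP_fd8838_nt.LawOfMinima.result d m hd hm hc hle
  obtain ⟨D, L, _, _, ⟨hLv, _⟩, hDd, hDpos, hsum0, _, _, hfin⟩ := hlaw r hr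
  have hsum : HasSum (fun e : E d m r => D e) (1 - L) := hsum0
  have hMe : ∀ e : ℤ, 0 < e → Mn (ind (fun n : ℕ => (n : ℤ) ∈ WithMin d m r e)) (D e) := fun e he => mn_of (hDd e he)
  have hML : Mn (ind (fun n : ℕ => (n : ℤ) ∈ Leaving d m r)) L := mn_of hLv
  have hDe : ∀ e : ℤ, 0 < e → HasDensity (fun n => (n : ℤ) ∈ WithMin d m r e) (D e) :=
    fun e he => along_of (hMe e he) fun n _ => Iff.rfl
  have hDL : HasDensity (fun n => (n : ℤ) ∈ Leaving d m r) L := along_of hML fun n _ => Iff.rfl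
  refine ⟨D, L, hsum, hDe, hDL, fun ε hε hε1 Y => ?_⟩
  obtain ⟨k0, hk0⟩ := ksync_fe hA (max R0 Y)
  obtain ⟨η, c, K, hη, hc0, hc1, hK, S₀⟩ := scaleF hA 2 k0 0 hε hε1
  have hks : ∀ f : ℤ → ℝ, OfMinimum d m r Y f → KSync d (mq m) (r0 r) 1 2 k0 (fun n => f (n : ℤ)) :=
    fun f hf => hk0 1 (Or.inl rfl) _ (fun x hx => hx) _ (of_ef hA (hRm Y) (le_max_right _ _) hf)
  have hFl : ∀ {q : ℕ} {f : ℕ → ℂ}, Flat q η f → FlatP q η f := fun h => ⟨h.1, h.2, h.3⟩
  have hlF : ∀ {q : ℕ} {f : ℕ → ℂ}, FlatP q η f → Flat q η f := fun h => ⟨h.1, h.2, h.3⟩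
  have hFs : ∀ {q : ℕ} {A : Finset ℕ}, FlatSet q η A → FlatI q η A := fun h => ⟨h.1, hFl h.2⟩
  have hrho : ∀ {N q : ℕ} {A : Finset ℕ} {v : ℝ}, 1 ≤ q → (q : ℝ) * (N : ℝ) ^ (-v) ≤ A.card → (N : ℝ) ^ (-v) ≤ (A.card / q : ℝ) := by
    intro N q A v hq0 h
    have hqr : (0 : ℝ) < q := by exact_mod_cast hq0
    rw [le_div_iff₀ hqr]
    linarith
  have hqpos : ∀ {N q : ℕ}, 1 ≤ N → InRange d ε N q → 1 ≤ q := by
    intro N q hN hq
    have h1 : (1 : ℝ) ≤ (N : ℝ) ^ ε := Real.one_le_rpow (by exact_mod_cast hN) hε.le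
    have h2 : (1 : ℝ) ≤ q := h1.trans hq.2.1
    exact_mod_cast h2
  have hcnt : ∀ (E P : ℕ → Prop) (X : ℕ), count (fun n => E n ∧ P n) X = ∑ n ∈ Finset.Icc 1 X, ind E n * ind P n := by
    intro E P X
    rw [count_ind]
    apply Finset.sum_congr rfl
    intro n _
    exact Pool.Agent.Run7.h439.DC.ind_and _ _ n
  have hofs : ∀ P : ℤ → Prop, OfMinimum d m r Y (fun x => if P x then 1 else 0) →
      KSync d (mq m) (r0 r) 1 2 k0 (ind (fun n : ℕ => P (n : ℤ))) := by
    intro P hP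
    have h3 := hks _ hP
    have e : (fun n : ℕ => (fun y : ℤ => if P y then (1 : ℝ) else 0) (n : ℤ)) = ind (fun n : ℕ => P (n : ℤ)) := by
      funext n
      by_cases hn : P (n : ℤ)
      · rw [ind_pos (P := fun n : ℕ => P (n : ℤ)) hn]; exact if_pos hn
      · rw [ind_neg (P := fun n : ℕ => P (n : ℤ)) hn]; exact if_neg hn
    rw [e] at h3
    exact h3
  have hbd : ∀ (P : ℤ → Prop) (x : ℤ), |if P x then (1 : ℝ) else 0| ≤ 1 := by
    intro P x
    split_ifs <;> simp
  have hno1 : ∀ {e x : ℤ}, 0 < e → x ∈ WithMin d m r e → x ∉ Leaving d m r := by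
    rintro e x he ⟨h1, _⟩ ⟨k, hk⟩
    have := h1 k
    omega
  have hno2 : ∀ {e x : ℤ}, e ≤ Y → x ∈ WithMin d m r e → ¬ ∀ k : ℕ, (Y : ℤ) < (T d m r)^[k] x := by
    rintro e x he ⟨_, k, hk⟩ h
    have := h k
    omega
  have hno3 : ∀ {x : ℤ}, x ∈ Leaving d m r → ¬ ∀ k : ℕ, (Y : ℤ) < (T d m r)^[k] x := by
    rintro x ⟨k, hk⟩ h
    have := h k
    have : (0 : ℤ) ≤ Y := Nat.cast_nonneg Y
    omega
  have hKe : ∀ e : ℤ, 1 ≤ e → e ≤ Y → KSync d (mq m) (r0 r) 1 2 k0 (ind (fun n : ℕ => (n : ℤ) ∈ WithMin d m r e)) := by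
    intro e he heY
    refine hofs (fun x => x ∈ WithMin d m r e) ⟨hbd _, fun e' he' _ x hx y hy => ?_, fun x hx y hy => ?_, fun x y hx hy => ?_⟩
    · by_cases h : e' = e
      · subst h
        simp only [if_pos hx, if_pos hy]
      · have h1 : x ∉ WithMin d m r e := fun h' => h (min_unique hx h')
        have h2 : y ∉ WithMin d m r e := fun h' => h (min_unique hy h')
        simp only [if_neg h1, if_neg h2]
    · have h1 : x ∉ WithMin d m r e := fun h' => hno1 (by omega) h' hx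
      have h2 : y ∉ WithMin d m r e := fun h' => hno1 (by omega) h' hy
      simp only [if_neg h1, if_neg h2]
    · have h1 : x ∉ WithMin d m r e := fun h' => hno2 heY h' hx
      have h2 : y ∉ WithMin d m r e := fun h' => hno2 heY h' hy
      simp only [if_neg h1, if_neg h2]
  have hKL : KSync d (mq m) (r0 r) 1 2 k0 (ind (fun n : ℕ => (n : ℤ) ∈ Leaving d m r)) := by
    refine hofs (fun x => x ∈ Leaving d m r) ⟨hbd _, fun e' he' _ x hx y hy => ?_, fun x hx y hy => ?_, fun x y hx hy => ?_⟩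
    · have h1 : x ∉ Leaving d m r := hno1 (by omega) hx
      have h2 : y ∉ Leaving d m r := hno1 (by omega) hy
      simp only [if_neg h1, if_neg h2]
    · simp only [if_pos hx, if_pos hy]
    · have h1 : x ∉ Leaving d m r := fun h' => hno3 h' hx
      have h2 : y ∉ Leaving d m r := fun h' => hno3 h' hy
      simp only [if_neg h1, if_neg h2]
  have hKG : KSync d (mq m) (r0 r) 1 2 k0 (ind (fun n : ℕ => ∀ k : ℕ, (Y : ℤ) < (T d m r)^[k] (n : ℤ))) := by
    refine hofs (fun x => ∀ k : ℕ, (Y : ℤ) < (T d m r)^[k] x)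
      ⟨hbd _, fun e' he' heY x hx y hy => ?_, fun x hx y hy => ?_, fun x y hx hy => ?_⟩
    · have h1 := hno2 heY hx
      have h2 := hno2 heY hy
      simp only [if_neg h1, if_neg h2]
    · have h1 := hno3 hx
      have h2 := hno3 hy
      simp only [if_neg h1, if_neg h2]
    · simp only [if_pos hx, if_pos hy]
  -- the density of the integers whose orbits stay above `Y`
  have hdisj : HasDensity (fun n => (∃ e ∈ Finset.Icc (1 : ℤ) Y, (n : ℤ) ∈ WithMin d m r e) ∨ (n : ℤ) ∈ Leaving d m r)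
      (∑ e ∈ Finset.Icc (1 : ℤ) Y, D e + L) := by
    have h4 := dens_sum (Finset.Icc (1 : ℤ) Y) (fun e n => (n : ℤ) ∈ WithMin d m r e) (fun e => D e)
      (fun e he => hDe e (by have := (Finset.mem_Icc.1 he).1; omega)) (by
        rintro n e _ e' _ g1 g2
        exact min_unique g1 g2)
    exact dens_add h4 hDL (by
      rintro n ⟨e, he, g1⟩ g2
      exact hno1 (by have := (Finset.mem_Icc.1 he).1; omega) g1 g2)
  have hiff : ∀ n : ℕ, 1 ≤ n → ((∀ k : ℕ, (Y : ℤ) < (T d m r)^[k] (n : ℤ)) ↔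
      ¬ ((∃ e ∈ Finset.Icc (1 : ℤ) Y, (n : ℤ) ∈ WithMin d m r e) ∨ (n : ℤ) ∈ Leaving d m r)) := by
    intro n hn
    constructor
    · rintro h (⟨e, he, g1⟩ | g)
      · exact hno2 (Finset.mem_Icc.1 he).2 g1 h
      · exact hno3 g h
    · intro h
      push Not at h
      obtain ⟨h1, h2⟩ := h
      have hpos : ∀ k : ℕ, 0 < (T d m r)^[k] (n : ℤ) := by
        intro k
        by_contra hcon
        exact h2 ⟨k, not_lt.1 hcon⟩
      obtain ⟨k, hk⟩ := exists_min hpos
      have h3 : (Y : ℤ) < (T d m r)^[k] (n : ℤ) := by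
        by_contra hcon
        exact h1 _ (Finset.mem_Icc.2 ⟨hpos k, not_lt.1 hcon⟩) hk
      exact fun j => lt_of_lt_of_le h3 (hk.1 j)
  set G : ℝ := 1 - (∑ e ∈ Finset.Icc (1 : ℤ) Y, D e + L) with hG
  have hMG : Mn (ind (fun n : ℕ => ∀ k : ℕ, (Y : ℤ) < (T d m r)^[k] (n : ℤ))) G := by
    unfold Mn
    unfold HasDensity at hdisj
    have h6 : Tendsto (fun _ : ℕ => (1 : ℝ)) atTop (𝓝 1) := tendsto_const_nhds
    refine (h6.sub hdisj).congr' ?_
    filter_upwards [eventually_ge_atTop 1] with X hX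
    have hx0 : (X : ℝ) ≠ 0 := by
      have : (0 : ℝ) < X := by exact_mod_cast hX
      exact this.ne'
    rw [count_ind]
    set P : ℕ → Prop := fun n => (∃ e ∈ Finset.Icc (1 : ℤ) Y, (n : ℤ) ∈ WithMin d m r e) ∨ (n : ℤ) ∈ Leaving d m r with hP
    have e : ∀ n ∈ Finset.Icc 1 X, ind (fun n : ℕ => ∀ k : ℕ, (Y : ℤ) < (T d m r)^[k] (n : ℤ)) n = 1 - ind P n := by
      intro n hn
      have h1 := hiff n (Finset.mem_Icc.1 hn).1
      by_cases h : P n
      · rw [ind_pos (P := P) h, ind_neg (P := fun n : ℕ => ∀ k : ℕ, (Y : ℤ) < (T d m r)^[k] (n : ℤ)) (fun h' => h1.1 h' h), sub_self]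
      · rw [ind_neg (P := P) h, ind_pos (P := fun n : ℕ => ∀ k : ℕ, (Y : ℤ) < (T d m r)^[k] (n : ℤ)) (h1.2 h), sub_zero]
    rw [Finset.sum_congr rfl e, Finset.sum_sub_distrib, Finset.sum_const, Nat.card_Icc, Nat.add_sub_cancel, nsmul_eq_mul, mul_one]
    field_simp
  have hG0 : 0 ≤ G := by
    refine ge_of_tendsto hMG ?_
    filter_upwards with X
    apply div_nonneg _ (Nat.cast_nonneg _)
    exact Finset.sum_nonneg fun n _ => ind_nonneg _ n
  have hTS : ∀ {F : ℕ → ℝ} {l : ℝ}, KSync d (mq m) (r0 r) 1 2 k0 F → Mn F l → ∀ v : ℝ, 0 ≤ v → v < c → ∀ τ : ℝ, 0 < τ →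
      ∃ N₀ : ℕ, 1 ≤ N₀ ∧ ∀ N : ℕ, N₀ ≤ N → ∀ q : ℕ, InRange d ε N q → ∀ A : Finset ℕ, FlatSet q η A →
        (q : ℝ) * (N : ℝ) ^ (-v) ≤ A.card →
        |∑ n ∈ Finset.Icc 1 N, ind (fun n => n % q ∈ A) n * F n - l * (A.card / q * N)| ≤ τ * (A.card / q * N) := by
    intro F l hF hM v _ hv τ hτ
    obtain ⟨N₀, hN₀⟩ := (dens hM (C := K) hv hτ).exists_forall_of_atTop
    refine ⟨max N₀ 1, le_max_right _ _, fun N hN q hq A hA hcard => ?_⟩
    have hN1 : 1 ≤ N := (le_max_right _ _).trans hN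
    have hq1 := hqpos hN1 hq
    exact hN₀ N ((le_max_left _ _).trans hN) (fun n => n % q ∈ A) (A.card / q) (hrho hq1 hcard)
      (S₀.set1 (Or.inl rfl) hN1 hq1 hq.1 hq.2.1 hq.2.2 (hFs hA) hF)
  refine ⟨η, c, K + 1, hη, hc0, hc1, by linarith, ?_, ?_, ?_, ?_, ?_, ?_⟩
  · intro N q hN hq g hg f hf X hX
    have h4 := S₀.fun1 (Or.inl rfl) hN (hqpos hN hq) hq.1 hq.2.1 hq.2.2 (hFl hg) (hks f hf) hX
    refine h4.trans ?_
    have : 0 ≤ (N : ℝ) ^ (1 - c) := by positivity
    nlinarith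
  · intro v hv0 hv τ hτ
    have h1 : ∀ e : ℤ, ∃ N₀ : ℕ, 1 ≤ e → e ≤ Y → ∀ N : ℕ, N₀ ≤ N → ∀ q : ℕ, InRange d ε N q →
        ∀ A : Finset ℕ, FlatSet q η A → (q : ℝ) * (N : ℝ) ^ (-v) ≤ A.card →
        |count (fun n => n % q ∈ A ∧ (n : ℤ) ∈ WithMin d m r e) N - D e * (A.card / q * N)| ≤ τ * (A.card / q * N) := by
      intro e
      by_cases he : 1 ≤ e ∧ e ≤ Y
      · obtain ⟨N₀, _, hN₀⟩ := hTS (hKe e he.1 he.2) (hMe e (by omega)) v hv0 hv τ hτ
        refine ⟨N₀, fun _ _ N hN q hq A hA hcard => ?_⟩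
        rw [hcnt]
        exact hN₀ N hN q hq A hA hcard
      · exact ⟨0, fun h1 h2 => absurd ⟨h1, h2⟩ he⟩
    choose Nf hNf using h1
    obtain ⟨N₁, _, hN₁⟩ := hTS hKL hML v hv0 hv τ hτ
    refine ⟨max ((Finset.Icc (1 : ℤ) Y).sup Nf) N₁, fun N hN q hq A hA hcard => ⟨fun e he1 heY => ?_, ?_⟩⟩
    · have h2 : Nf e ≤ N := ((Finset.le_sup (f := Nf) (Finset.mem_Icc.2 ⟨he1, heY⟩)).trans (le_max_left _ _)).trans hN
      exact hNf e he1 heY N h2 q hq A hA hcard
    · rw [hcnt]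
      exact hN₁ N ((le_max_right _ _).trans hN) q hq A hA hcard
  · intro v hv0 hv ψ hψ hfr
    have hGz : G = 0 := by
      by_contra hne
      have hlt : 0 < G := lt_of_le_of_ne hG0 (Ne.symm hne)
      obtain ⟨N₀, hN₀1, hN₀⟩ := hTS hKG hMG v hv0 hv (G / 2) (by positivity)
      have hψ' := hψ.eventually (gt_mem_nhds (show (0 : ℝ) < G / 4 by positivity))
      obtain ⟨N, ⟨q, hq, A, hA, hcard, hfew⟩, hN, hψN⟩ := (hfr.and_eventually ((eventually_ge_atTop N₀).and hψ')).exists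
      have h5 := hN₀ N hN q hq A hA hcard
      rw [hcnt] at hfew
      have hN1 : 1 ≤ N := hN₀1.trans hN
      have hN1' : (1 : ℝ) ≤ N := by exact_mod_cast hN1
      have hρ := hrho (v := v) (hqpos hN1 hq) hcard
      have hρ0 : 0 < (A.card / q : ℝ) := lt_of_lt_of_le (by positivity) hρ
      have h6 : 0 < (A.card / q : ℝ) * N := by positivity
      have h7 := (abs_le.1 h5).1
      nlinarith
    have h9 : ∑ e ∈ Finset.Icc (1 : ℤ) Y, D e = 1 - L := by
      rw [hG] at hGz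
      linarith
    have hD0 : ∀ e : ℤ, 0 < e → 0 ≤ D e := by
      intro e he
      refine ge_of_tendsto (mn_of (hDd e he)) ?_
      filter_upwards with X
      apply div_nonneg _ (Nat.cast_nonneg _)
      exact Finset.sum_nonneg fun n _ => ind_nonneg _ n
    have hDE : ∀ e : ℤ, 0 < e → 0 < D e → e ∈ E d m r := by
      intro e he h0
      obtain ⟨g1, _⟩ := (hDpos e he).1 h0
      refine ⟨he, ?_, fun k _ _ => g1 k⟩
      intro hdvd
      have g2 : e ≤ T d m r e := g1 1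
      unfold T at g2
      rw [if_pos hdvd] at g2
      have hd1 : (2 : ℤ) ≤ d := by exact_mod_cast hd
      have h2 : e / d < e := Int.ediv_lt_of_lt_mul (by omega) (by nlinarith)
      omega
    have hbig : ∀ e ∈ E d m r, 0 < D e → e ≤ Y := by
      intro e he h0
      by_contra hcon
      push Not at hcon
      set F : Finset (E d m r) := ((Finset.Icc (1 : ℤ) Y).subtype fun x => x ∈ E d m r) with hF
      have hmem : (⟨e, he⟩ : E d m r) ∉ F := by
        rw [hF, Finset.mem_subtype, Finset.mem_Icc]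
        rintro ⟨_, g⟩
        exact absurd g (not_le.2 hcon)
      have g1 := sum_le_hasSum (insert (⟨e, he⟩ : E d m r) F) (fun i _ => hD0 i.1 i.2.1) hsum
      rw [Finset.sum_insert hmem] at g1
      have g2 : ∑ x ∈ F, D (x : ℤ) = ∑ x ∈ Finset.Icc (1 : ℤ) Y, D x := by
        rw [hF, Finset.sum_subtype_eq_sum_filter, Finset.sum_filter]
        apply Finset.sum_congr rfl
        intro x hx
        split_ifs with hxE
        · rfl
        · have hx0 : 0 < x := by have := (Finset.mem_Icc.1 hx).1; omega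
          by_contra hcon2
          exact hxE (hDE x hx0 (lt_of_le_of_ne (hD0 x hx0) (fun g => hcon2 g)))
      rw [g2, h9] at g1
      simp only at g1
      linarith
    refine hfin.2 ?_
    set P : Finset ℤ := (Finset.Icc (1 : ℤ) Y).filter fun e => 0 < D e with hP
    by_cases hne : P.Nonempty
    · refine ⟨P.inf' hne D, ?_, fun e he h0 => ?_⟩
      · rw [Finset.lt_inf'_iff]
        intro e he
        exact (Finset.mem_filter.1 he).2
      · apply Finset.inf'_le
        rw [hP, Finset.mem_filter, Finset.mem_Icc]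
        exact ⟨⟨he.1, hbig e he h0⟩, h0⟩
    · refine ⟨1, one_pos, fun e he h0 => ?_⟩
      exfalso
      apply hne
      refine ⟨e, ?_⟩
      rw [hP, Finset.mem_filter, Finset.mem_Icc]
      exact ⟨⟨he.1, hbig e he h0⟩, h0⟩
  · intro q χ hq hχ
    exact hlF (flatP_char hq hη.le hχ)
  · intro q a b hq hab
    exact hlF (flatP_quad hη.le hq hab b)
  · intro p k hp hk hkp A hA h
    have h5 := flatI_pow hp hk hkp hA h
    exact ⟨h5.1, hlF h5.2⟩

end Pool.Agent.Results.MP_fd8838_nt.FlatResidues
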