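import Pool.Agent.Run7.h439.DC.Poly3
import Pool.Agent.Results.MP_fd8838_nt.LawOfMinima

set_option autoImplicit false

/-!
# The minima of the orbits of the maps of Möller and polynomials modulo one

We consider the positive integers `n` for which the fractional part of `p(n)` is in a given interval, where `p` is a
real polynomial of degree at least two whose leading coefficient is irrational and not a Liouville number. The
minima of the `T`-orbits are distributed in every such class as among all positive integers, with a power saving,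
and the finiteness of the exceptional set is decided by almost all members of one class.
-/

namespace Pool.Agent.Results.MP_fd8838_nt.PolynomialClasses

open Filter Topology

/-- the map `T(n) = n / d` if `d ∣ n` and `(m n - r_j) / d` if `n ≡ j mod d`, `1 ≤ j < d`; the points of a
`T`-orbit that are not divisible by `d` form the `H`-orbit -/
def T (d m : ℕ) (r : ℕ → ℤ) (n : ℤ) : ℤ :=
  if (d : ℤ) ∣ n then n / d else (m * n - r (n % d).toNat) / d

/-- the exceptional set `E(d, m, R)`, in terms of `T`: the integers `e > 0` not divisible by `d` such that,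
as long as the orbit of `e` stays positive, its terms not divisible by `d` (the terms of the `H`-orbit)
are `≥ e` -/
def E (d m : ℕ) (r : ℕ → ℤ) : Set ℤ :=
  {e : ℤ | 0 < e ∧ ¬ (d : ℤ) ∣ e ∧ ∀ k : ℕ, (∀ j ≤ k, 0 < (T d m r)^[j] e) →
    ¬ (d : ℤ) ∣ (T d m r)^[k] e → e ≤ (T d m r)^[k] e}

/-- the integers whose `T`-orbit has minimum `e` -/
def WithMin (d m : ℕ) (r : ℕ → ℤ) (e : ℤ) : Set ℤ :=
  {n : ℤ | (∀ k : ℕ, e ≤ (T d m r)^[k] n) ∧ ∃ k : ℕ, (T d m r)^[k] n = e}

/-- the integers whose `T`-orbit leaves the positive integers -/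
def Leaving (d m : ℕ) (r : ℕ → ℤ) : Set ℤ := {n : ℤ | ∃ k : ℕ, (T d m r)^[k] n ≤ 0}

/-- `α` is irrational and not a Liouville number. -/
def Diophantine (α : ℝ) : Prop :=
  ∃ A c : ℝ, 0 < c ∧ ∀ l : ℕ, 1 ≤ l → ∀ a : ℤ, c * (l : ℝ) ^ (-A) ≤ |l * α - a|

/-- The data: a real polynomial `p` of degree `g ≥ 2` with leading coefficient `α`, and `0 ≤ u ≤ v ≤ 1`. -/
structure Data (g : ℕ) (α : ℝ) (p : Polynomial ℝ) (u v : ℝ) : Prop where
  two : 2 ≤ g
  deg : p.natDegree ≤ g
  lead : p.coeff g = α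
  nonneg : 0 ≤ u
  le : u ≤ v
  le_one : v ≤ 1

/-- the class: the fractional part of `p(n)` is in `[u, v)` -/
def InClass (p : Polynomial ℝ) (u v : ℝ) (n : ℕ) : Prop :=
  u ≤ Int.fract (p.eval (n : ℝ)) ∧ Int.fract (p.eval (n : ℝ)) < v

/-- the number of the `1 ≤ n ≤ X` with the property `P` -/
noncomputable def count (P : ℕ → Prop) (X : ℕ) : ℝ := ({n : ℕ | 1 ≤ n ∧ n ≤ X ∧ P n}.ncard : ℝ)

/-- The set of the positive integers with the property `P` has natural density `δ`. -/
def HasDensity (P : ℕ → Prop) (δ : ℝ) : Prop := Tendsto (fun X : ℕ => count P X / X) atTop (𝓝 δ)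

open Pool.Agent.Run7.h439.DC
open Pool.Agent.H319R3.GC (Tm Adm Mw wd Mw_cons)
open Pool.Agent.Y965.PL (Mn MnS ind ind_pos ind_neg ind_congr ind_nonneg)
open Pool.Agent.Results.MP_fd8838_nt.LawOfMinima (r0)
open Pool.Agent.TH930.GH (mq)

theorem T_eq (d m : ℕ) (hd : 2 ≤ d) (r : ℕ → ℤ) : Tm d (mq m) (r0 r) = T d m r :=
  (Pool.Agent.Results.MP_fd8838_nt.LawOfMinima.T_eq d m hd r).symm

theorem count_ind (P : ℕ → Prop) (X : ℕ) : count P X = ∑ n ∈ Finset.Icc 1 X, ind P n := by
  classical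
  unfold count ind
  rw [Finset.sum_boole]
  have e : {n : ℕ | 1 ≤ n ∧ n ≤ X ∧ P n} = ((Finset.Icc 1 X).filter fun n => P n : Finset ℕ) := by
    ext n
    simp only [Set.mem_ofPred_eq, Finset.coe_filter, Finset.mem_Icc, and_assoc]
  rw [e, Set.ncard_coe_finset]

theorem along_of {P Q : ℕ → Prop} {d : ℝ} (h : Mn (ind Q) d) (hPQ : ∀ n, 1 ≤ n → (P n ↔ Q n)) : HasDensity P d := by
  unfold HasDensity
  unfold Mn at h
  refine h.congr fun X => ?_
  rw [count_ind P X]
  congr 1
  apply Finset.sum_congr rfl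
  intro n hn
  exact ind_congr (hPQ _ (Finset.mem_Icc.1 hn).1).symm

theorem dens_unique {P : ℕ → Prop} {a b : ℝ} (h : HasDensity P a) (h' : HasDensity P b) : a = b := tendsto_nhds_unique h h'

theorem dens_iff {P Q : ℕ → Prop} {δ : ℝ} (h : HasDensity P δ) (hPQ : ∀ n, 1 ≤ n → (P n ↔ Q n)) : HasDensity Q δ := by
  unfold HasDensity at h ⊢
  refine h.congr fun X => ?_
  have e : {n : ℕ | 1 ≤ n ∧ n ≤ X ∧ P n} = {n : ℕ | 1 ≤ n ∧ n ≤ X ∧ Q n} := by
    ext n
    simp only [Set.mem_ofPred_eq]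
    constructor
    · rintro ⟨h1, h2, h3⟩; exact ⟨h1, h2, (hPQ n h1).1 h3⟩
    · rintro ⟨h1, h2, h3⟩; exact ⟨h1, h2, (hPQ n h1).2 h3⟩
  unfold count
  rw [e]

theorem dens_add {P Q : ℕ → Prop} {a b : ℝ} (h : HasDensity P a) (h' : HasDensity Q b) (hd : ∀ n, P n → ¬ Q n) :
    HasDensity (fun n => P n ∨ Q n) (a + b) := by
  unfold HasDensity at h h' ⊢
  refine (h.add h').congr fun X => ?_
  have e : {n : ℕ | 1 ≤ n ∧ n ≤ X ∧ (P n ∨ Q n)} = {n : ℕ | 1 ≤ n ∧ n ≤ X ∧ P n} ∪ {n : ℕ | 1 ≤ n ∧ n ≤ X ∧ Q n} := by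
    ext n
    simp only [Set.mem_ofPred_eq, Set.mem_union]
    tauto
  unfold count
  rw [e, Set.ncard_union_eq _ ((Set.finite_Iic X).subset fun n hn => hn.2.1) ((Set.finite_Iic X).subset fun n hn => hn.2.1)]
  · push_cast; ring
  · rw [Set.disjoint_left]
    rintro n ⟨_, _, h1⟩ ⟨_, _, h2⟩
    exact hd n h1 h2

theorem dens_none {P : ℕ → Prop} (h : ∀ n, 1 ≤ n → ¬ P n) : HasDensity P 0 := by
  unfold HasDensity
  refine tendsto_const_nhds.congr fun N => ?_
  have e : {n : ℕ | 1 ≤ n ∧ n ≤ N ∧ P n} = ∅ := by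
    rw [Set.eq_empty_iff_forall_notMem]
    rintro n ⟨h1, _, hn⟩
    exact h n h1 hn
  unfold count
  rw [e]
  simp

theorem dens_sum {ι : Type*} (A : Finset ι) (P : ι → ℕ → Prop) (a : ι → ℝ) (h : ∀ i ∈ A, HasDensity (P i) (a i))
    (hd : ∀ n, ∀ i ∈ A, ∀ j ∈ A, P i n → P j n → i = j) : HasDensity (fun n => ∃ i ∈ A, P i n) (∑ i ∈ A, a i) := by
  classical
  induction A using Finset.induction_on with
  | empty =>
    rw [Finset.sum_empty]
    exact dens_none fun n _ => by rintro ⟨i, hi, _⟩; simp at hi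
  | insert i A hi ih =>
    rw [Finset.sum_insert hi]
    have h1 := dens_add (h i (Finset.mem_insert_self i A)) (ih (fun j hj => h j (Finset.mem_insert_of_mem hj))
      (fun n j hj k hk => hd n j (Finset.mem_insert_of_mem hj) k (Finset.mem_insert_of_mem hk))) (by
      rintro n hn ⟨j, hj, hjn⟩
      have := hd n i (Finset.mem_insert_self i A) j (Finset.mem_insert_of_mem hj) hn hjn
      subst this
      exact hi hj)
    refine dens_iff h1 fun n _ => ?_
    constructor
    · rintro (h2 | ⟨j, hj, h2⟩)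
      · exact ⟨i, Finset.mem_insert_self i A, h2⟩
      · exact ⟨j, Finset.mem_insert_of_mem hj, h2⟩
    · rintro ⟨j, hj, h2⟩
      rcases Finset.mem_insert.1 hj with rfl | hj
      · exact Or.inl h2
      · exact Or.inr ⟨j, hj, h2⟩

theorem mn_of {S : Set ℤ} {δ : ℝ} (h : Pool.Agent.Results.MP_fd8838_nt.LawOfMinima.HasDensity S δ) :
    Mn (ind (fun n : ℕ => (n : ℤ) ∈ S)) δ := by
  unfold Pool.Agent.Y965.PL.Mn
  refine Filter.Tendsto.congr (fun N => ?_) h
  have h1 := side_count (s := 1) (Or.inl rfl) S N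
  simp only [one_mul] at h1
  rw [← h1]
  congr 3
  ext x
  simp only [Set.mem_ofPred_eq]
  constructor
  · rintro ⟨h1, h2, h3⟩; exact ⟨by omega, h3, h1⟩
  · rintro ⟨h1, h2, h3⟩; exact ⟨h3, by omega, h2⟩

/-- the properties of the first term in `[-R, R]` -/
def Via (d m : ℕ) (r : ℕ → ℤ) (R : ℕ) (Q : ℤ → Prop) (x : ℤ) : Prop :=
  ∃ k, FE (T d m r) (fun y => |y| ≤ (R : ℤ)) k x ∧ Q ((T d m r)^[k] x)

theorem via_ef {d m : ℕ} (hd : 2 ≤ d) (r : ℕ → ℤ) (R : ℕ) (Q : ℤ → Prop) :
    EF d (mq m) (r0 r) 1 (fun y => |y| ≤ (R : ℤ)) (ind (fun n : ℕ => Via d m r R Q (n : ℤ))) := by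
  classical
  refine ⟨fun n => by unfold ind; split_ifs <;> simp, fun k n n' h1 h2 _ h4 => ?_, fun n n' h1 h2 => ?_⟩
  · rw [T_eq d m hd, one_mul] at h1 h2
    rw [T_eq d m hd, one_mul, one_mul] at h4
    apply ind_congr
    unfold Via
    constructor
    · rintro ⟨j, hj, hQ⟩
      have := FE_unique hj h1
      subst this
      exact ⟨j, h2, by rw [← h4]; exact hQ⟩
    · rintro ⟨j, hj, hQ⟩
      have := FE_unique hj h2
      subst this
      exact ⟨j, h1, by rw [h4]; exact hQ⟩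
  · rw [T_eq d m hd, one_mul] at h1 h2
    rw [ind_neg, ind_neg]
    · rintro ⟨j, hj, _⟩; exact h2 j hj
    · rintro ⟨j, hj, _⟩; exact h1 j hj

/-- large terms are followed by positive terms -/
theorem step_pos {d m : ℕ} {r : ℕ → ℤ} (hA : Adm d (mq m) (r0 r)) {R : ℕ} (hR : ∀ j < d, |r j| ≤ (R : ℤ)) {x : ℤ}
    (hx : (R : ℤ) < x) : 0 < T d m r x := by
  have hd := hA.two_le
  have h1 := Pool.Agent.H319R3.GC.iter_eq hA 1 x
  obtain ⟨_, h3⟩ := Pool.Agent.Y965.GP.mod_toNat hA.two_le x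
  set i := (x % (d : ℤ)).toNat with hi
  have e1 : Mw (mq m) (wd d (mq m) (r0 r) 1 x) = mq m i := by simp [wd, Mw, hi]
  have e2 : Pool.Agent.H319R3.GC.Ww d (mq m) (r0 r) (wd d (mq m) (r0 r) 1 x) = r0 r i := by
    simp [wd, Pool.Agent.H319R3.GC.Ww, Mw, hi]
  rw [e1, e2, pow_one, Function.iterate_one, T_eq d m hd] at h1
  have h0 : 0 ≤ (R : ℤ) := Nat.cast_nonneg R
  have hm1 : 1 ≤ mq m i := by
    unfold Pool.Agent.TH930.GH.mq
    split_ifs with h
    · exact le_rfl
    · have h5 := hA.cop i h3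
      unfold Pool.Agent.TH930.GH.mq at h5
      rw [if_neg h] at h5
      by_contra hcon
      have h6 : m = 0 := by omega
      rw [h6] at h5
      have h7 : IsUnit (d : ℤ) := by
        have h8 : IsCoprime (0 : ℤ) (d : ℤ) := by simpa using h5
        exact isCoprime_zero_left.1 h8
      rw [Int.isUnit_iff] at h7
      omega
  have hr0 : r0 r i ≤ (R : ℤ) := by
    unfold Pool.Agent.Results.MP_fd8838_nt.LawOfMinima.r0
    split_ifs
    · exact h0
    · exact (le_abs_self _).trans (hR i h3)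
  have h5 : 0 < (d : ℤ) * T d m r x := by
    rw [h1]
    have : x ≤ mq m i * x := le_mul_of_one_le_left (by omega) hm1
    omega
  have hd0 : (0 : ℤ) < d := by omega
  exact (mul_pos_iff_of_pos_left hd0).1 h5

/-- the terms before the first term in `[-R, R]` are larger than `R` -/
theorem before {d m : ℕ} {r : ℕ → ℤ} (hA : Adm d (mq m) (r0 r)) {R : ℕ} (hR : ∀ j < d, |r j| ≤ (R : ℤ)) {x : ℤ} (hx : 0 < x)
    {k : ℕ} (hk : ∀ i < k, ¬ |(T d m r)^[i] x| ≤ (R : ℤ)) : ∀ i < k, (R : ℤ) < (T d m r)^[i] x := by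
  intro i
  induction i with
  | zero =>
    intro h
    have h1 := hk 0 h
    rw [Function.iterate_zero, id_eq, abs_of_pos hx] at h1
    rw [Function.iterate_zero, id_eq]
    omega
  | succ i ih =>
    intro h
    have h1 := ih (by omega)
    have h2 : 0 < (T d m r)^[i + 1] x := by
      rw [Function.iterate_succ_apply']
      exact step_pos hA hR h1
    have h3 := hk _ h
    rw [abs_of_pos h2] at h3
    exact not_le.1 h3

theorem via_min {d m : ℕ} {r : ℕ → ℤ} (hA : Adm d (mq m) (r0 r)) {R : ℕ} (hR : ∀ j < d, |r j| ≤ (R : ℤ)) {x : ℤ} (hx : 0 < x)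
    {e : ℤ} (he0 : 0 < e) (he : e ≤ R) : x ∈ WithMin d m r e ↔ Via d m r R (fun y => y ∈ WithMin d m r e) x := by
  constructor
  · rintro ⟨h1, j, hj⟩
    obtain ⟨k, hk⟩ := (FE_iff (T := T d m r) (A := fun y => |y| ≤ (R : ℤ)) (x := x)).1
      ⟨j, by show |(T d m r)^[j] x| ≤ (R : ℤ); rw [hj, abs_of_pos he0]; exact he⟩
    have hkj : k ≤ j := by
      by_contra hcon
      have := hk.2 j (not_le.1 hcon)
      apply this
      show |(T d m r)^[j] x| ≤ (R : ℤ)
      rw [hj, abs_of_pos he0]; exact he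
    refine ⟨k, hk, fun i => ?_, j - k, ?_⟩
    · rw [← Function.iterate_add_apply]; exact h1 _
    · rw [← Function.iterate_add_apply, Nat.sub_add_cancel hkj]; exact hj
  · rintro ⟨k, hk, h1, j, hj⟩
    have hb := before hA hR hx hk.2
    refine ⟨fun i => ?_, j + k, by rw [Function.iterate_add_apply]; exact hj⟩
    rcases lt_or_ge i k with h | h
    · have := hb i h
      omega
    · have := h1 (i - k)
      rw [← Function.iterate_add_apply, Nat.sub_add_cancel h] at this
      exact this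

theorem via_leave {d m : ℕ} {r : ℕ → ℤ} (hA : Adm d (mq m) (r0 r)) {R : ℕ} (hR : ∀ j < d, |r j| ≤ (R : ℤ)) {x : ℤ} (hx : 0 < x) :
    x ∈ Leaving d m r ↔ Via d m r R (fun y => y ∈ Leaving d m r) x := by
  constructor
  · rintro ⟨j, hj⟩
    have hex : ∃ k, (fun y => |y| ≤ (R : ℤ)) ((T d m r)^[k] x) := by
      by_contra hcon
      push Not at hcon
      have := before hA hR hx (k := j + 1) (fun i _ => not_le.2 (hcon i)) j (by omega)
      omega
    obtain ⟨k, hk⟩ := (FE_iff (T := T d m r) (A := fun y => |y| ≤ (R : ℤ)) (x := x)).1 hex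
    have hkj : k ≤ j := by
      by_contra hcon
      have := before hA hR hx hk.2 j (not_le.1 hcon)
      omega
    exact ⟨k, hk, j - k, by rw [← Function.iterate_add_apply, Nat.sub_add_cancel hkj]; exact hj⟩
  · rintro ⟨k, hk, j, hj⟩
    exact ⟨j + k, by rw [Function.iterate_add_apply]; exact hj⟩

theorem min_unique {d m : ℕ} {r : ℕ → ℤ} {e e' x : ℤ} (h : x ∈ WithMin d m r e) (h' : x ∈ WithMin d m r e') : e = e' := by
  obtain ⟨h1, j, hj⟩ := h
  obtain ⟨h1', j', hj'⟩ := h'
  have a1 := h1 j'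
  have a2 := h1' j
  rw [hj'] at a1
  rw [hj] at a2
  omega

/-- `√2` is irrational and not a Liouville number -/
theorem exists_dioph : ∃ α : ℝ, Diophantine α := by
  refine ⟨√2, 1, 1 / 4, by norm_num, fun l hl a => ?_⟩
  have hl1 : (1 : ℝ) ≤ l := by exact_mod_cast hl
  have h2 : √2 ^ 2 = 2 := Real.sq_sqrt (by norm_num)
  have h3 : √2 < 3 / 2 := by
    rw [Real.sqrt_lt' (by norm_num)]; norm_num
  have h0 : 0 < √2 := by positivity
  rw [Real.rpow_neg_one]
  by_contra hcon
  push Not at hcon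
  -- the integer `2 l ^ 2 - a ^ 2` is not zero
  have hne : (2 * (l : ℤ) ^ 2 - a ^ 2) ≠ 0 := by
    intro h
    have h4 : (a : ℝ) ^ 2 = (√2 * l) ^ 2 := by
      rw [mul_pow, h2]
      have : ((2 * (l : ℤ) ^ 2 - a ^ 2 : ℤ) : ℝ) = 0 := by rw [h]; simp
      push_cast at this
      linarith
    have hirr : Irrational √2 := irrational_sqrt_two
    apply hirr
    have h5 : |(a : ℝ)| = √2 * l := by
      have h6 := congrArg Real.sqrt h4
      rw [Real.sqrt_sq_eq_abs, Real.sqrt_sq (by positivity)] at h6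
      exact h6
    refine ⟨(|a| : ℤ) / (l : ℤ), ?_⟩
    push_cast
    rw [h5]
    field_simp
  have h1 : (1 : ℝ) ≤ |2 * (l : ℝ) ^ 2 - (a : ℝ) ^ 2| := by
    have : (1 : ℤ) ≤ |2 * (l : ℤ) ^ 2 - a ^ 2| := Int.one_le_abs hne
    exact_mod_cast this
  have hfac : 2 * (l : ℝ) ^ 2 - (a : ℝ) ^ 2 = (l * √2 - a) * (l * √2 + a) := by
    have : (l * √2 - a) * (l * √2 + a) = (l : ℝ) ^ 2 * √2 ^ 2 - (a : ℝ) ^ 2 := by ring
    rw [this, h2]; ring
  rw [hfac, abs_mul] at h1
  have hli : (l : ℝ)⁻¹ ≤ 1 := inv_le_one_of_one_le₀ hl1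
  have hl0 : (0 : ℝ) < (l : ℝ)⁻¹ := by positivity
  have h7 : |(l : ℝ) * √2 + a| ≤ 2 * (l * √2) + 1 / 4 := by
    have h8 : (l : ℝ) * √2 + a = 2 * (l * √2) - (l * √2 - a) := by ring
    rw [h8]
    refine (abs_sub _ _).trans ?_
    rw [abs_of_pos (by positivity)]
    have : |(l : ℝ) * √2 - a| ≤ 1 / 4 := hcon.le.trans (by nlinarith)
    linarith
  have h8 : |(l : ℝ) * √2 - a| * |(l : ℝ) * √2 + a| < 1 / 4 * (l : ℝ)⁻¹ * (4 * l) := by
    have h9 : 2 * ((l : ℝ) * √2) + 1 / 4 ≤ 4 * l := by nlinarith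
    have h10 : 0 < 1 / 4 * (l : ℝ)⁻¹ := by positivity
    calc |(l : ℝ) * √2 - a| * |(l : ℝ) * √2 + a| ≤ |(l : ℝ) * √2 - a| * (4 * l) :=
          mul_le_mul_of_nonneg_left (h7.trans h9) (abs_nonneg _)
      _ < 1 / 4 * (l : ℝ)⁻¹ * (4 * l) := mul_lt_mul_of_pos_right hcon (by positivity)
  have h9 : 1 / 4 * (l : ℝ)⁻¹ * (4 * l) = 1 := by field_simp
  linarith

/-- MINIMA OF THE ORBITS IN THE CLASSES OF POLYNOMIALS. Let `d, m ≥ 2` be coprime with `m ≤ d ^ (d / (d - 1))`, and
let `R` be admissible.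

(1) For all `g ≥ 2`, all irrational `α` which are not Liouville numbers and all `Y` there are `K` and `c > 0` such
that for all sets `B` of integers in `[1, Y]`, all real polynomials `p` of degree `g` with leading coefficient `α`,
all `0 ≤ u ≤ v ≤ 1`, all residue classes `b` modulo `M` and all `X ≥ 1` the number of the `n ≤ X`, `n ≡ b` modulo
`M`, with the fractional part of `p(n)` in `[u, v)` whose `T`-orbit has its minimum in `B` is `v - u` times the
number of all such `n ≤ X`, `n ≡ b` modulo `M`, up to `K X ^ (1 - c)`; and the same for the `n` whose `T`-orbit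
leaves the positive integers.

(2) The densities `D e` of the sets of the positive integers whose `T`-orbit has minimum `e`, and the density
`η` of those whose orbit leaves the positive integers, exist, the sum of the `D e` over the exceptional set is
`1 - η`, and in every class of such a polynomial these sets have the densities `(v - u) * D e` and `(v - u) * η`.

(3) The exceptional set is finite if and only if there are such a polynomial `p`, a class with `u < v` and a bound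
`y` such that the `n` in the class whose `T`-orbit stays in the integers larger than `y` have natural density
`0`. -/
theorem result (d m : ℕ) (hd : 2 ≤ d) (hm : 2 ≤ m) (hc : Nat.Coprime m d)
    (hle : (m : ℝ) ≤ (d : ℝ) ^ ((d : ℝ) / ((d : ℝ) - 1))) (r : ℕ → ℤ)
    (hr : ∀ j : ℕ, 1 ≤ j → j < d → r j ≡ m * j [ZMOD d]) :
    (∀ (g : ℕ) (α : ℝ), 2 ≤ g → Diophantine α → ∀ Y : ℕ, ∃ K c : ℝ, 0 < c ∧
      ∀ B : Set ℤ, (∀ e ∈ B, 1 ≤ e ∧ e ≤ Y) → ∀ (p : Polynomial ℝ) (u v : ℝ), Data g α p u v →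
      ∀ M b X : ℕ, 1 ≤ M → 1 ≤ X →
        |count (fun n => n ≡ b [MOD M] ∧ InClass p u v n ∧ ∃ e ∈ B, (n : ℤ) ∈ WithMin d m r e) X -
          (v - u) * count (fun n => n ≡ b [MOD M] ∧ ∃ e ∈ B, (n : ℤ) ∈ WithMin d m r e) X| ≤ K * (X : ℝ) ^ (1 - c) ∧
        |count (fun n => n ≡ b [MOD M] ∧ InClass p u v n ∧ (n : ℤ) ∈ Leaving d m r) X -
          (v - u) * count (fun n => n ≡ b [MOD M] ∧ (n : ℤ) ∈ Leaving d m r) X| ≤ K * (X : ℝ) ^ (1 - c)) ∧
    (∃ (D : ℤ → ℝ) (η : ℝ), HasSum (fun e : E d m r => D e) (1 - η) ∧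
      ∀ (g : ℕ) (α : ℝ) (p : Polynomial ℝ) (u v : ℝ), Diophantine α → Data g α p u v →
        (∀ e : ℤ, 0 < e →
          HasDensity (fun n => InClass p u v n ∧ (n : ℤ) ∈ WithMin d m r e) ((v - u) * D e)) ∧
        HasDensity (fun n => InClass p u v n ∧ (n : ℤ) ∈ Leaving d m r) ((v - u) * η)) ∧
    ((E d m r).Finite ↔ ∃ (g : ℕ) (α : ℝ) (p : Polynomial ℝ) (u v : ℝ) (y : ℕ), Diophantine α ∧ Data g α p u v ∧
      u < v ∧ HasDensity (fun n => InClass p u v n ∧ ∀ k : ℕ, (y : ℤ) < (T d m r)^[k] n) 0) := by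
  classical
  have hA : Adm d (mq m) (r0 r) := Pool.Agent.Results.MP_fd8838_nt.LawOfMinima.adm hd hm hc hle hr
  obtain ⟨R0, hR0⟩ : ∃ R0 : ℕ, ∀ j < d, |r j| ≤ (R0 : ℤ) := by
    refine ⟨(Finset.range d).sup fun j => (r j).natAbs, fun j hj => ?_⟩
    have h1 : (r j).natAbs ≤ (Finset.range d).sup fun j => (r j).natAbs :=
      Finset.le_sup (f := fun j => (r j).natAbs) (Finset.mem_range.2 hj)
    rw [Int.abs_eq_natAbs]
    exact_mod_cast h1
  have hPD : ∀ {g : ℕ} {α : ℝ} {p : Polynomial ℝ} {u v : ℝ}, Data g α p u v → PD (g - 1) α p u v := by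
    intro g α p u v hD
    have e1 : g - 1 + 1 = g := by have := hD.two; omega
    exact ⟨by rw [e1]; exact hD.deg, by rw [e1]; exact hD.lead, hD.nonneg, hD.le, hD.le_one⟩
  have hcnt0 : ∀ (M b : ℕ) (Q : ℕ → Prop) (X : ℕ),
      count (fun n => n ≡ b [MOD M] ∧ Q n) X = ∑ n ∈ Finset.Icc 1 X, Rs M b (ind Q) n := by
    intro M b Q X
    rw [count_ind]
    apply Finset.sum_congr rfl
    intro n _
    unfold Rs
    by_cases h : n % M = b % M
    · rw [if_pos h]
      exact ind_congr ⟨fun h' => h'.2, fun h' => ⟨h, h'⟩⟩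
    · rw [if_neg h]
      exact ind_neg (fun h' => h h'.1)
  have hcnt : ∀ (p : Polynomial ℝ) (u v : ℝ) (M b : ℕ) (Q : ℕ → Prop) (X : ℕ),
      count (fun n => n ≡ b [MOD M] ∧ InClass p u v n ∧ Q n) X =
        ∑ n ∈ Finset.Icc 1 X, ind (Ep p u v) n * Rs M b (ind Q) n := by
    intro p u v M b Q X
    rw [hcnt0]
    apply Finset.sum_congr rfl
    intro n _
    unfold Rs
    by_cases h : n % M = b % M
    · rw [if_pos h, if_pos h, ← ind_and]
      rfl
    · rw [if_neg h, if_neg h, mul_zero]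
  have hvia : ∀ (g : ℕ) (α : ℝ), 2 ≤ g → Diophantine α → ∀ Y : ℕ, ∃ C c : ℝ, 0 ≤ C ∧ 0 < c ∧
      ∀ (Q : ℤ → Prop) (p : Polynomial ℝ) (u v : ℝ), Data g α p u v → ∀ M b : ℕ, 1 ≤ M → CT (Ep p u v) (v - u) C c
        (Rs M b (ind (fun n : ℕ => Via d m r (max R0 Y) Q (n : ℤ)))) := by
    intro g α hg hα Y
    obtain ⟨C, c, hC, hc0, _, H⟩ := fe_ctp hA (max R0 Y) (k := g - 1) (by omega) hα
    refine ⟨C, c, hC, hc0, fun Q p u v hD M b hM => ?_⟩
    exact H 1 (Or.inl rfl) _ (fun x hx => hx) _ (via_ef hd r _ Q) p u v (hPD hD) M b hM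
  have hvia1 : ∀ (g : ℕ) (α : ℝ), Diophantine α → ∀ Y : ℕ, ∀ (p : Polynomial ℝ) (u v : ℝ), Data g α p u v →
      ∃ C c : ℝ, 0 ≤ C ∧ 0 < c ∧ ∀ (Q : ℤ → Prop), CT (Ep p u v) (v - u) C c
        (ind (fun n : ℕ => Via d m r (max R0 Y) Q (n : ℤ))) := by
    intro g α hα Y p u v hD
    obtain ⟨C, c, hC, hc0, H⟩ := hvia g α hD.two hα Y
    refine ⟨C, c, hC, hc0, fun Q => ?_⟩
    have h1 := H Q p u v hD 1 0 le_rfl
    rw [Rs_one] at h1
    exact h1
  have hRm : ∀ Y : ℕ, ∀ j < d, |r j| ≤ ((max R0 Y : ℕ) : ℤ) := by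
    intro Y j hj
    have h1 := hR0 j hj
    have h2 : (R0 : ℤ) ≤ ((max R0 Y : ℕ) : ℤ) := by exact_mod_cast le_max_left R0 Y
    omega
  obtain ⟨_, _, _, hlaw⟩ := Pool.Agent.Results.MP_fd8838_nt.LawOfMinima.result d m hd hm hc hle
  obtain ⟨D, η, _, _, ⟨hη, _⟩, hDd, hDpos, hsum0, _, _, hfin⟩ := hlaw r hr
  have hsum : HasSum (fun e : E d m r => D e) (1 - η) := hsum0
  have hclass : ∀ (g : ℕ) (α : ℝ) (p : Polynomial ℝ) (u v : ℝ), Diophantine α → Data g α p u v →
        (∀ e : ℤ, 0 < e →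
          HasDensity (fun n => InClass p u v n ∧ (n : ℤ) ∈ WithMin d m r e) ((v - u) * D e)) ∧
        HasDensity (fun n => InClass p u v n ∧ (n : ℤ) ∈ Leaving d m r) ((v - u) * η) ∧
        HasDensity (InClass p u v) (v - u) := by
    intro g α p u v hα hD
    have hρ0 : 0 ≤ v - u := by linarith [hD.le]
    have hρ1 : v - u ≤ 1 := by linarith [hD.nonneg, hD.le_one]
    refine ⟨fun e he => ?_, ?_, ?_⟩
    · obtain ⟨C, c, hC, hc0, hT⟩ := hvia1 g α hα e.toNat p u v hD
      have heR : e ≤ ((max R0 e.toNat : ℕ) : ℤ) := by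
        have : ((e.toNat : ℕ) : ℤ) ≤ ((max R0 e.toNat : ℕ) : ℤ) := by exact_mod_cast le_max_right R0 e.toNat
        have h2 := Int.toNat_of_nonneg he.le
        omega
      have hM : Mn (ind (fun n : ℕ => Via d m r (max R0 e.toNat) (fun y => y ∈ WithMin d m r e) (n : ℤ))) (D e) := by
        have h1 := mn_of (hDd e he)
        unfold Pool.Agent.Y965.PL.Mn at h1 ⊢
        refine h1.congr fun X => ?_
        congr 1
        apply Finset.sum_congr rfl
        intro n hn
        have hn0 : (0 : ℤ) < n := by exact_mod_cast (Finset.mem_Icc.1 hn).1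
        exact ind_congr (via_min hA (hRm _) hn0 he heR)
      exact along_of (cls_set hρ0 hρ1 hc0 (hT _) hM) fun n hn =>
        and_congr Iff.rfl (via_min hA (hRm _) (by exact_mod_cast hn) he heR)
    · obtain ⟨C, c, hC, hc0, hT⟩ := hvia1 g α hα 0 p u v hD
      have hM : Mn (ind (fun n : ℕ => Via d m r (max R0 0) (fun y => y ∈ Leaving d m r) (n : ℤ))) η := by
        have h1 := mn_of hη
        unfold Pool.Agent.Y965.PL.Mn at h1 ⊢
        refine h1.congr fun X => ?_
        congr 1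
        apply Finset.sum_congr rfl
        intro n hn
        have hn0 : (0 : ℤ) < n := by exact_mod_cast (Finset.mem_Icc.1 hn).1
        exact ind_congr (via_leave hA (hRm _) hn0)
      exact along_of (cls_set hρ0 hρ1 hc0 (hT _) hM) fun n hn =>
        and_congr Iff.rfl (via_leave hA (hRm _) (by exact_mod_cast hn))
    · obtain ⟨C, c, hC, hc0, _, hT⟩ := inv_ctp hA (k := g - 1) (by have := hD.two; omega) hα
      have h1 := (hT 1 (Or.inl rfl) (fun _ => 1) (by simp) (fun _ => rfl) p u v (hPD hD) 1 0 le_rfl).congr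
        (G := ind fun _ : ℕ => True) (fun n => by rw [ind_pos trivial, Rs_one])
      have hM : Mn (ind fun _ : ℕ => True) 1 := by
        have h2 := Pool.Agent.Y965.PL.Mn_const 1
        unfold Pool.Agent.Y965.PL.Mn at h2 ⊢
        refine h2.congr fun X => ?_
        congr 1
        apply Finset.sum_congr rfl
        intro n _
        rw [ind_pos trivial]
      have h3 := cls_set hρ0 hρ1 hc0 h1 hM
      rw [mul_one] at h3
      exact along_of h3 fun n _ => by unfold InClass Ep; tauto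
  refine ⟨fun g α hg hα Y => ?_, ⟨D, η, hsum, fun g α p u v hα hD => ⟨(hclass g α p u v hα hD).1, (hclass g α p u v hα hD).2.1⟩⟩,
    fun hE => ?_, ?_⟩
  · obtain ⟨C, c, hC, hc0, hT⟩ := hvia g α hg hα Y
    have hRs : ∀ (M b : ℕ) (F G : ℕ → ℝ) (X : ℕ), (∀ n ∈ Finset.Icc 1 X, F n = G n) →
        ∀ n ∈ Finset.Icc 1 X, Rs M b F n = Rs M b G n := by
      intro M b F G X h n hn
      unfold Rs
      rw [h n hn]
    refine ⟨C, c, hc0, fun B hB p u v hD M b X hM hX => ⟨?_, ?_⟩⟩
    · have h1 := (hT (fun y => ∃ e ∈ B, y ∈ WithMin d m r e) p u v hD M b hM).tr X hX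
      rw [hcnt, hcnt0]
      have e : ∀ n ∈ Finset.Icc 1 X, ind (fun n : ℕ => ∃ e ∈ B, (n : ℤ) ∈ WithMin d m r e) n =
          ind (fun n : ℕ => Via d m r (max R0 Y) (fun y => ∃ e ∈ B, y ∈ WithMin d m r e) (n : ℤ)) n := by
        intro n hn
        have hn0 : (0 : ℤ) < n := by exact_mod_cast (Finset.mem_Icc.1 hn).1
        apply ind_congr
        have heR : ∀ e ∈ B, e ≤ ((max R0 Y : ℕ) : ℤ) := by
          intro e he
          have h2 := (hB e he).2
          have h3 : (Y : ℤ) ≤ ((max R0 Y : ℕ) : ℤ) := by exact_mod_cast le_max_right R0 Y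
          omega
        constructor
        · rintro ⟨e, he, h2⟩
          obtain ⟨k, hk, h3⟩ := (via_min hA (hRm Y) hn0 (by have := (hB e he).1; omega) (heR e he)).1 h2
          exact ⟨k, hk, e, he, h3⟩
        · rintro ⟨k, hk, e, he, h3⟩
          exact ⟨e, he, (via_min hA (hRm Y) hn0 (by have := (hB e he).1; omega) (heR e he)).2 ⟨k, hk, h3⟩⟩
      have e' := hRs M b _ _ X e
      rw [Finset.sum_congr rfl e', Finset.sum_congr rfl fun n hn => by rw [e' n hn]]
      exact h1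
    · have h1 := (hT (fun y => y ∈ Leaving d m r) p u v hD M b hM).tr X hX
      rw [hcnt, hcnt0]
      have e : ∀ n ∈ Finset.Icc 1 X, ind (fun n : ℕ => (n : ℤ) ∈ Leaving d m r) n =
          ind (fun n : ℕ => Via d m r (max R0 Y) (fun y => y ∈ Leaving d m r) (n : ℤ)) n := by
        intro n hn
        have hn0 : (0 : ℤ) < n := by exact_mod_cast (Finset.mem_Icc.1 hn).1
        exact ind_congr (via_leave hA (hRm Y) hn0)
      have e' := hRs M b _ _ X e
      rw [Finset.sum_congr rfl e', Finset.sum_congr rfl fun n hn => by rw [e' n hn]]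
      exact h1
  · -- the minimum of an orbit which stays positive is exceptional
    obtain ⟨y, hy⟩ : ∃ y : ℕ, ∀ e ∈ E d m r, e ≤ (y : ℤ) := by
      obtain ⟨b, hb⟩ := hE.bddAbove
      exact ⟨b.toNat, fun e he => (hb he).trans (Int.self_le_toNat b)⟩
    obtain ⟨α, hα⟩ := exists_dioph
    refine ⟨2, α, Polynomial.C α * Polynomial.X ^ 2, 0, 1, y, hα, ⟨le_rfl, ?_, ?_, le_rfl, zero_le_one, le_rfl⟩, zero_lt_one,
      dens_none fun n hn => ?_⟩
    · exact (Polynomial.natDegree_C_mul_X_pow_le _ _)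
    · rw [Polynomial.coeff_C_mul, Polynomial.coeff_X_pow_self, mul_one]
    rintro ⟨_, h⟩
    -- the least term
    obtain ⟨k, hk⟩ : ∃ k : ℕ, ∀ j : ℕ, (T d m r)^[k] (n : ℤ) ≤ (T d m r)^[j] (n : ℤ) := by
      have hwf := (WellFounded.min_mem (r := (· < · : ℕ → ℕ → Prop)) wellFounded_lt
        (Set.range fun j : ℕ => ((T d m r)^[j] (n : ℤ)).toNat) ⟨_, 0, rfl⟩)
      obtain ⟨k, hk⟩ := hwf
      refine ⟨k, fun j => ?_⟩
      have h1 := WellFounded.not_lt_min (r := (· < · : ℕ → ℕ → Prop)) wellFounded_lt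
        (x := ((T d m r)^[j] (n : ℤ)).toNat) (s := Set.range fun j : ℕ => ((T d m r)^[j] (n : ℤ)).toNat) ⟨j, rfl⟩
      rw [← hk] at h1
      have h2 := h k
      have h3 := h j
      simp only at h1
      omega
    have hk0 := h k
    set e := (T d m r)^[k] (n : ℤ) with he
    have hepos : 0 < e := by
      have : (0 : ℤ) ≤ y := Nat.cast_nonneg y
      omega
    have hmin : ∀ j : ℕ, e ≤ (T d m r)^[j] e := by
      intro j
      rw [he, ← Function.iterate_add_apply]
      exact hk _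
    have hnd : ¬ (d : ℤ) ∣ e := by
      intro hdvd
      have h1 := hmin 1
      rw [Function.iterate_one] at h1
      unfold T at h1
      rw [if_pos hdvd] at h1
      have hd1 : (2 : ℤ) ≤ d := by exact_mod_cast hd
      have h2 : e / d < e := Int.ediv_lt_of_lt_mul (by omega) (by nlinarith)
      omega
    have heE : e ∈ E d m r := ⟨hepos, hnd, fun j _ _ => hmin j⟩
    have := hy e heE
    omega
  · rintro ⟨g, α, p, u, v, y, hα, hD, huv, h⟩
    obtain ⟨h1, h2, h3⟩ := hclass g α p u v hα hD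
    set ρ : ℝ := v - u with hρ
    have hρ0 : 0 < ρ := by rw [hρ]; linarith
    -- the class is the disjoint union
    have h4 := dens_sum (Finset.Icc (1 : ℤ) y) (fun e n => InClass p u v n ∧ (n : ℤ) ∈ WithMin d m r e) (fun e => ρ * D e)
      (fun e he => h1 e (by have := (Finset.mem_Icc.1 he).1; omega)) (by
        rintro n e _ e' _ ⟨_, g1⟩ ⟨_, g2⟩
        exact min_unique g1 g2)
    have h5 := dens_add h4 h2 (by
      rintro n ⟨e, he, _, g1⟩ ⟨_, k, g2⟩
      have := g1.1 k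
      have := (Finset.mem_Icc.1 he).1
      omega)
    have h6 := dens_add h5 h (by
      rintro n (⟨e, he, _, g1⟩ | ⟨_, k, g1⟩) ⟨_, g2⟩
      · obtain ⟨_, k, hk⟩ := g1
        have := g2 k
        rw [hk] at this
        have := (Finset.mem_Icc.1 he).2
        omega
      · have := g2 k
        have : (0 : ℤ) ≤ y := Nat.cast_nonneg y
        omega)
    have h7 : HasDensity (InClass p u v) (∑ e ∈ Finset.Icc (1 : ℤ) y, ρ * D e + ρ * η + 0) := by
      refine dens_iff h6 fun n hn => ?_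
      constructor
      · rintro ((⟨_, _, g, _⟩ | ⟨g, _⟩) | ⟨g, _⟩) <;> exact g
      · intro g
        by_cases hl : (n : ℤ) ∈ Leaving d m r
        · exact Or.inl (Or.inr ⟨g, hl⟩)
        · have hpos : ∀ k : ℕ, 0 < (T d m r)^[k] (n : ℤ) := by
            intro k
            by_contra hcon
            exact hl ⟨k, not_lt.1 hcon⟩
          obtain ⟨k, hk⟩ : ∃ k : ℕ, ∀ j : ℕ, (T d m r)^[k] (n : ℤ) ≤ (T d m r)^[j] (n : ℤ) := by
            have hwf := (WellFounded.min_mem (r := (· < · : ℕ → ℕ → Prop)) wellFounded_lt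
              (Set.range fun j : ℕ => ((T d m r)^[j] (n : ℤ)).toNat) ⟨_, 0, rfl⟩)
            obtain ⟨k, hk⟩ := hwf
            refine ⟨k, fun j => ?_⟩
            have h1 := WellFounded.not_lt_min (r := (· < · : ℕ → ℕ → Prop)) wellFounded_lt
              (x := ((T d m r)^[j] (n : ℤ)).toNat) (s := Set.range fun j : ℕ => ((T d m r)^[j] (n : ℤ)).toNat) ⟨j, rfl⟩
            rw [← hk] at h1
            have h2 := hpos k
            have h3 := hpos j
            simp only at h1
            omega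
          rcases le_or_gt ((T d m r)^[k] (n : ℤ)) y with g1 | g1
          · exact Or.inl (Or.inl ⟨(T d m r)^[k] (n : ℤ), Finset.mem_Icc.2 ⟨hpos k, g1⟩, g, hk, k, rfl⟩)
          · exact Or.inr ⟨g, fun j => lt_of_lt_of_le g1 (hk j)⟩
    have h8 := dens_unique h7 h3
    rw [add_zero, ← Finset.mul_sum] at h8
    have h9 : ∑ e ∈ Finset.Icc (1 : ℤ) y, D e = 1 - η := by
      have : ρ * (∑ e ∈ Finset.Icc (1 : ℤ) y, D e + η) = ρ * 1 := by linarith
      have := mul_left_cancel₀ hρ0.ne' this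
      linarith
    -- the exceptional elements with positive density are at most `y`
    have hD0 : ∀ e : ℤ, 0 < e → 0 ≤ D e := by
      intro e he
      refine ge_of_tendsto (mn_of (hDd e he)) ?_
      filter_upwards with X
      apply div_nonneg _ (Nat.cast_nonneg _)
      exact Finset.sum_nonneg fun n _ => ind_nonneg _ n
    have hDE : ∀ e : ℤ, 0 < e → 0 < D e → e ∈ E d m r := by
      intro e he h0
      obtain ⟨g1, _⟩ := (hDpos e he).1 h0
      refine ⟨he, ?_, fun k _ _ => g1 k⟩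
      intro hdvd
      have g2 : e ≤ T d m r e := g1 1
      unfold T at g2
      rw [if_pos hdvd] at g2
      have hd1 : (2 : ℤ) ≤ d := by exact_mod_cast hd
      have h2 : e / d < e := Int.ediv_lt_of_lt_mul (by omega) (by nlinarith)
      omega
    have hbig : ∀ e ∈ E d m r, 0 < D e → e ≤ y := by
      intro e he h0
      by_contra hcon
      push Not at hcon
      -- the finite sum over the exceptional elements at most `y` and `e`
      set F : Finset (E d m r) := ((Finset.Icc (1 : ℤ) y).subtype fun x => x ∈ E d m r) with hF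
      have hmem : (⟨e, he⟩ : E d m r) ∉ F := by
        rw [hF, Finset.mem_subtype, Finset.mem_Icc]
        rintro ⟨_, g⟩
        exact absurd g (not_le.2 hcon)
      have g1 := sum_le_hasSum (insert (⟨e, he⟩ : E d m r) F) (fun i _ => hD0 i.1 i.2.1) hsum
      rw [Finset.sum_insert hmem] at g1
      have g2 : ∑ x ∈ F, D (x : ℤ) = ∑ x ∈ Finset.Icc (1 : ℤ) y, D x := by
        rw [hF, Finset.sum_subtype_eq_sum_filter, Finset.sum_filter]
        apply Finset.sum_congr rfl
        intro x hx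
        split_ifs with hxE
        · rfl
        · have hx0 : 0 < x := by have := (Finset.mem_Icc.1 hx).1; omega
          by_contra hcon2
          exact hxE (hDE x hx0 (lt_of_le_of_ne (hD0 x hx0) (fun g => hcon2 g)))
      rw [g2, h9] at g1
      simp only at g1
      linarith
    refine hfin.2 ?_
    set P : Finset ℤ := (Finset.Icc (1 : ℤ) y).filter fun e => 0 < D e with hP
    by_cases hne : P.Nonempty
    · refine ⟨P.inf' hne D, ?_, fun e he h0 => ?_⟩
      · rw [Finset.lt_inf'_iff]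
        intro e he
        exact (Finset.mem_filter.1 he).2
      · apply Finset.inf'_le
        rw [hP, Finset.mem_filter, Finset.mem_Icc]
        exact ⟨⟨he.1, hbig e he h0⟩, h0⟩
    · refine ⟨1, one_pos, fun e he h0 => ?_⟩
      exfalso
      apply hne
      refine ⟨e, ?_⟩
      rw [hP, Finset.mem_filter, Finset.mem_Icc]
      exact ⟨⟨he.1, hbig e he h0⟩, h0⟩

end Pool.Agent.Results.MP_fd8838_nt.PolynomialClasses
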