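import Mathlib
import Pool.Agent.Run7.h603.Dl8

set_option autoImplicit false

/-!
# Generalized Hasse-Syracuse maps: product sets of the orbits of the exceptional numbers

Let `H x = (m x - r_j) / d^{a(x)}` be the map of the question, `E` its exceptional set (the numbers
`n > 0` not divisible by `d` with `H^(k) n ≥ n` for all `k`), `R` a bound for the `|r_j|` and `τ` a bound
for the numbers of divisors of the `r_j`. Then under Möller's condition `m ≤ d ^ (d / (d - 1))`, for every
`x ∈ E` with `x ≥ R` the set `X = {x, H x, …, H^(n) x}` has, if these terms are distinct, large product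
sets in terms of `s = n / (16 (d - 1) τ)`: with `X^(N)` for the set of the products of `N` elements of `X`,
* `|X^(N)| ≥ s ^ (log N / (log log N + 7/5))` for every `N ≥ 2`, so the exponent tends to infinity;
* `|X^(2)| ≥ (s / 4) ^ (5/4)`;
* `X` expands every finite set of rational numbers by multiplication.

The same holds (with the factor `A` in the place of `2`) for all `m` coprime to `d`, and with other
constants for all finite pieces of orbits in the integers of both signs whose last term is at least the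
first in absolute value, for all finite unions of cycles, also without a small part of their elements,
and for the first `n` terms of divergent orbits, for all large `n`.

Method. The product of the quotients `|H y| / |y|` along the orbit is at least `1`, so the exponents
`a(y)` are at most `A` in the mean and at most `2 A` for half of the terms. So a part `B` of `X` with
at least `s` elements belongs to one residue class `j`, one exponent `a`, one sign, and has one greatest
common divisor `g` of its elements with `r_j`. After division by `g` the numbers `m |y|` and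
`m |y| ± r_j / g` are up to constant factors both in `X`, and the theorems on shifted sets of
`Pool/Agent/Run7/h603` apply (built on the starting files `Pool/Agent/N811/IS` for the theorem of Bourgain
and Chang, and `Pool/Agent/W975/SP` for two factors).
-/

namespace Pool.Agent.Results.MP_fd8838_nt.ProductsOfOrbits

/-- The generalized Hasse-Syracuse map: `m x - r_j` without its powers of `d`, where `j` is the residue
of `x` modulo `d`. -/
noncomputable def H (d m : ℕ) (r : ℤ → ℤ) (x : ℤ) : ℤ :=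
  ((m : ℤ) * x - r (x % (d : ℤ))) / (d : ℤ) ^ (multiplicity (d : ℤ) ((m : ℤ) * x - r (x % (d : ℤ))))

/-- The exceptional set. -/
def E (d m : ℕ) (r : ℤ → ℤ) : Set ℤ :=
  {n : ℤ | 0 < n ∧ ¬ ((d : ℤ) ∣ n) ∧ ∀ k : ℕ, ¬ ((H d m r)^[k] n < n)}

/-- The first `n` terms `x, H x, …, H^(n-1) x` of the orbit of `x`. -/
noncomputable def terms (d m : ℕ) (r : ℤ → ℤ) (x : ℤ) (n : ℕ) : Finset ℤ :=
  (Finset.range n).image fun k => (H d m r)^[k] x

/-- The set of the products of `N` elements of `X` (which need not be distinct). -/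
def prods (N : ℕ) (X : Finset ℤ) : Finset ℤ :=
  (Fintype.piFinset fun _ : Fin N => X).image fun f => ∏ i, f i

/-- The exponent `log N / (log log N + 7/5)`. -/
noncomputable def expo (N : ℕ) : ℝ := Real.log N / (Real.log (Real.log N) + 7 / 5)

/-- The product sets of `X` are large in terms of the number `s`. -/
def Large (X : Finset ℤ) (s : ℝ) : Prop :=
  -- products of `N` elements
  (∀ N : ℕ, 2 ≤ N → s ^ expo N ≤ ((prods N X).card : ℝ)) ∧
  -- products of two elements
  (s / 4) ^ (5 / 4 : ℝ) ≤ ((prods 2 X).card : ℝ) ∧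
  -- products with the elements of an arbitrary set
  ∀ Y : Finset ℚ, Y.Nonempty → (0 : ℚ) ∉ Y → ∀ (N : ℕ) (t β : ℝ), 2 ≤ N → 2 ≤ t → 0 ≤ β →
    1 / (2 ^ (1 / t) - 1) ≤ ((N : ℝ) - (N - 1) * (2 ^ (1 / t) - 1)) ^ β →
    s ^ (1 + β) * (Y.card : ℝ) ^ (1 - 1 / t) ≤
      ((Finset.image₂ (fun (z : ℤ) (y : ℚ) => (z : ℚ) * y) X Y).card : ℝ) *
        ((prods N X).card : ℝ) ^ β

theorem result (d m : ℕ) (hd : 2 ≤ d) (hm : 1 ≤ m) (hcop : Nat.Coprime m d) (r : ℤ → ℤ)
    (hr : ∀ j : ℤ, 0 < j → j < (d : ℤ) → r j ≡ (m : ℤ) * j [ZMOD (d : ℤ)])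
    (R : ℤ) (hR : ∀ j : ℤ, 0 < j → j < (d : ℤ) → |r j| ≤ R)
    (τ : ℕ) (hτ1 : 1 ≤ τ)
    (hτ : ∀ j : ℤ, 0 < j → j < (d : ℤ) → (Nat.divisors (r j).natAbs).card ≤ τ) :
    -- 1. the exceptional numbers under Möller's condition
    ((m : ℝ) ≤ (d : ℝ) ^ ((d : ℝ) / ((d : ℝ) - 1)) → ∀ x ∈ E d m r, R ≤ x →
      ∀ n : ℕ, Set.InjOn (fun k => (H d m r)^[k] x) (Set.Iic n) →
        Large (terms d m r x (n + 1)) ((n : ℝ) / (16 * (d - 1) * τ))) ∧
    -- 2. the exceptional numbers for an arbitrary `m`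
    (∀ A : ℕ, m < d ^ A → ∀ x ∈ E d m r, R ≤ x →
      ∀ n : ℕ, Set.InjOn (fun k => (H d m r)^[k] x) (Set.Iic n) →
        Large (terms d m r x (n + 1)) ((n : ℝ) / (8 * (d - 1) * A * τ))) ∧
    -- 3. pieces of orbits in the integers, of both signs
    (∀ A : ℕ, 1 ≤ A → ∀ (x : ℤ) (n : ℕ), ¬ (d : ℤ) ∣ x →
      Set.InjOn (fun k => (H d m r)^[k] x) (Set.Iic n) → (∀ k ≤ n, (H d m r)^[k] x ≠ 0) →
      |x| ≤ |(H d m r)^[n] x| →
      (∀ k < n, (m : ℤ) * |(H d m r)^[k] x| + R ≤ (d : ℤ) ^ A * |(H d m r)^[k] x|) →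
        Large (terms d m r x (n + 1)) ((n : ℝ) / (8 * (d - 1) * A * τ))) ∧
    -- 4. finite unions of cycles
    (∀ A : ℕ, 1 ≤ A → ∀ P X : Finset ℤ, (∀ y ∈ P, ¬ (d : ℤ) ∣ y) → P.image (H d m r) = P → X ⊆ P →
      (∀ y ∈ P, (m : ℤ) * |y| + R ≤ (d : ℤ) ^ A * |y|) → 8 * (P \ X).card ≤ P.card →
        Large X ((P.card : ℝ) / (16 * (d - 1) * A * τ))) ∧
    -- 5. divergent orbits
    (∀ A : ℕ, m < d ^ A → ∀ x : ℤ, ¬ (d : ℤ) ∣ x →
      Function.Injective (fun k => (H d m r)^[k] x) → (∀ k, (H d m r)^[k] x ≠ 0) →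
        ∃ n₀ : ℕ, ∀ n ≥ n₀, Large (terms d m r x n) ((n : ℝ) / (16 * (d - 1) * A * τ))) := by
  refine ⟨?_, ?_, ?_, ?_, ?_⟩
  · intro hmo x hx hxR n hinj
    have h := Run7.h603.MO.exceptional hd hm hcop hr hτ1 hτ hR x hx hxR n hinj 2
      (Run7.h603.MO.moller hd hcop hmo)
    have e : (8 * ((d : ℝ) - 1) * ((2 : ℕ) : ℝ) * τ) = 16 * (d - 1) * τ := by
      push_cast
      ring
    rw [e] at h
    exact h
  · intro A hA x hx hxR n hinj
    exact Run7.h603.MO.exceptional hd hm hcop hr hτ1 hτ hR x hx hxR n hinj A hA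
  · intro A hA1 x n hx hinj h0 hup hA
    exact Run7.h603.MO.traj hd hm hcop hr hτ1 hτ hR x n hx hinj h0 hup A hA1 hA
  · intro A hA1 P X hPd hP hX hA hmiss
    exact Run7.h603.MO.cyc hd hm hcop hr hτ1 hτ hR P X hPd hP hX A hA1 hA hmiss
  · intro A hA x hx hinj h0
    have hA1 : 1 ≤ A := by
      rw [Nat.one_le_iff_ne_zero]
      rintro rfl
      rw [pow_zero] at hA
      omega
    exact Run7.h603.MO.divergent hd hm hcop hr hτ1 hτ x hx hinj h0 A hA1 hA

end Pool.Agent.Results.MP_fd8838_nt.ProductsOfOrbits
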